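import Mathlib
import Pool.Agent.U974.TW.Fld2
import Pool.Agent.U115.GE.Dens

/-! # Numbers which exchange the two values of the diagonal, for a finite family of curves with a point of order
two -/

set_option autoImplicit false

namespace Pool.Agent.U974.GC

open Finset
open Pool.Agent.Y703.CQ (nr)
open Pool.Agent.Y698.SG (nq nq_prod)
open Pool.Agent.U115.GE (Res Inert Split)
open Pool.Agent.U115.XP (nr_nq)
open Pool.Agent.R413.SQ.BOX (nr_self nr_symm)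
open Pool.Agent.U974.TW (nr_eq_zero_of nr_eq_one_of coprime_of_modEq_one)

open scoped Classical

/-- the auxiliary number of the pair `(a, b)` for the primes in the class of `b₀` modulo `L` -/
structure Flip (a b : ℤ) (L b₀ R : ℕ) : Prop where
  sqf : Squarefree R
  res : Res a b R
  inert : ∀ q : ℕ, q.Prime → q ∣ R → Inert a b q
  flip : ∀ p : ℕ, p.Prime → p ≡ b₀ [MOD L] → ¬ p ∣ R ∧ nq p R = 1

theorem Flip.mono {a b : ℤ} {L b₀ R L' b' : ℕ} (h : Flip a b L b₀ R) (hL : L ∣ L') (hb : b' ≡ b₀ [MOD L]) :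
    Flip a b L' b' R :=
  ⟨h.sqf, h.res, h.inert, fun p hp hpb => h.flip p hp ((hpb.of_dvd hL).trans hb)⟩

/-- a class with a given class modulo `L` and a nonresidue modulo the prime `q` -/
theorem exists_non (L b₀ q : ℕ) (hq : q.Prime) (hq2 : q ≠ 2) (hL : L.Coprime q) (hb : b₀.Coprime L) :
    ∃ c : ℕ, c ≡ b₀ [MOD L] ∧ ¬ IsSquare (c : ZMod q) ∧ c.Coprime (L * q) := by
  have : Fact q.Prime := ⟨hq⟩
  obtain ⟨g, hg⟩ := FiniteField.exists_nonsquare (F := ZMod q) (by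
    rw [ZMod.ringChar_zmod_n]
    exact hq2)
  obtain ⟨a, ha1, ha2⟩ := Nat.chineseRemainder hL b₀ g.val
  have h1 : (a : ZMod q) = g := by
    rw [(ZMod.natCast_eq_natCast_iff _ _ _).2 ha2, ZMod.natCast_zmod_val]
  refine ⟨a, ha1, by rwa [h1], Nat.Coprime.mul_right ?_ ?_⟩
  · rw [Nat.Coprime, ha1.gcd_eq]
    exact hb
  · rw [Nat.coprime_comm, Nat.Prime.coprime_iff_not_dvd hq]
    intro h2
    have h3 : (a : ZMod q) = 0 := (ZMod.natCast_eq_zero_iff _ _).2 h2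
    rw [h1] at h3
    exact hg (by rw [h3]; exact ⟨0, by ring⟩)

theorem jac_one {b : ℤ} {n : ℕ} (hn : n ≡ 1 [MOD 8 * b.natAbs]) (hb : b ≠ 0) : jacobiSym b n = 1 := by
  have hb0 : 0 < b.natAbs := Int.natAbs_pos.2 hb
  have hodd : Odd n := by
    have h1 : n ≡ 1 [MOD 2] := hn.of_dvd ⟨4 * b.natAbs, by ring⟩
    exact Nat.odd_iff.2 h1
  have h2 : n % (4 * b.natAbs) = 1 % (4 * b.natAbs) := hn.of_dvd ⟨2, by ring⟩
  rw [jacobiSym.mod_right b hodd, h2, ← jacobiSym.mod_right b (by decide), jacobiSym.one_right]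

theorem jac_mod {b : ℤ} {n n' : ℕ} (hn : n ≡ n' [MOD 8 * b.natAbs]) (ho : Odd n') :
    jacobiSym b n = jacobiSym b n' := by
  have hodd : Odd n := by
    have h1 : n ≡ n' [MOD 2] := hn.of_dvd ⟨4 * b.natAbs, by ring⟩
    rw [Nat.odd_iff] at ho ⊢
    rw [← ho]
    exact h1
  have h2 : n % (4 * b.natAbs) = n' % (4 * b.natAbs) := hn.of_dvd ⟨2, by ring⟩
  rw [jacobiSym.mod_right b hodd, h2, ← jacobiSym.mod_right b ho]

theorem step {a b : ℤ} (nb : ¬ IsSquare b) (nc : ¬ IsSquare (a ^ 2 - 4 * b)) {M L b₀ : ℕ}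
    (hM : 8 * (b * (a ^ 2 - 4 * b)).natAbs ∣ M) (hML : M ∣ L) (hL : 0 < L) (hb₁ : b₀ ≡ 1 [MOD M])
    (hb₀ : b₀.Coprime L) :
    ∃ L' b' R : ℕ, L ∣ L' ∧ 0 < L' ∧ b' ≡ b₀ [MOD L] ∧ b'.Coprime L' ∧ Flip a b L' b' R := by
  have hb0 : b ≠ 0 := by
    rintro rfl
    exact nb ⟨0, by norm_num⟩
  have hc0 : a ^ 2 - 4 * b ≠ 0 := by
    intro h
    exact nc (by rw [h]; exact ⟨0, by norm_num⟩)
  set c : ℤ := a ^ 2 - 4 * b with hc
  set Q : ℕ := 8 * (b * c).natAbs with hQ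
  have hQ0 : 0 < Q := by
    have : 0 < (b * c).natAbs := Int.natAbs_pos.2 (mul_ne_zero hb0 hc0)
    omega
  have hQL : Q ∣ L := hM.trans hML
  obtain ⟨hok, -, hin, -⟩ := Pool.Agent.U643.GE.t_CFG a b hb0 hc0 nb nc
  obtain ⟨r, hr⟩ := hok.hBn
  have hr' : r < Q ∧ Nat.Coprime r Q ∧ jacobiSym b r = -1 ∧ jacobiSym c r = -1 := by
    have h1 := Finset.mem_filter.1 hr
    exact ⟨Finset.mem_range.1 h1.1, h1.2⟩
  obtain ⟨hrQ, hrc, hrb, hrcc⟩ := hr'
  have hodd : Odd r := by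
    rw [← Nat.not_even_iff_odd]
    intro h
    have h2 : 2 ∣ Nat.gcd r Q := Nat.dvd_gcd h.two_dvd ⟨4 * (b * c).natAbs, by rw [hQ]; ring⟩
    rw [hrc] at h2
    omega
  have dvb : 8 * b.natAbs ∣ Q := ⟨c.natAbs, by rw [hQ, Int.natAbs_mul]; ring⟩
  have dvc : 8 * c.natAbs ∣ Q := ⟨b.natAbs, by rw [hQ, Int.natAbs_mul]; ring⟩
  obtain ⟨q, hq1, hq2, hq3⟩ := Nat.forall_exists_prime_gt_and_modEq L (q := Q) (a := r) hQ0.ne' hrc
  have hqL : L.Coprime q := by
    rw [Nat.coprime_comm, Nat.Prime.coprime_iff_not_dvd hq2]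
    intro h
    have := Nat.le_of_dvd hL h
    omega
  obtain ⟨u, hu⟩ : ∃ u : ℕ, q * u ≡ 1 [MOD L] := by
    rcases Nat.eq_or_lt_of_le (Nat.succ_le_of_lt hL) with h | h
    · refine ⟨1, ?_⟩
      rw [← h]
      exact Nat.modEq_one
    · obtain ⟨u, hu⟩ := Nat.exists_mul_mod_eq_one_of_coprime hqL.symm h
      refine ⟨u, ?_⟩
      unfold Nat.ModEq
      rw [hu.2, Nat.mod_eq_of_lt h]
  have huL : u.Coprime L := by
    have h1 : (q * u).Coprime L := coprime_of_modEq_one hu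
    exact Nat.Coprime.coprime_mul_left h1
  obtain ⟨q', hq'1, hq'2, hq'3⟩ := Nat.forall_exists_prime_gt_and_modEq (L + q) (q := L) (a := u) hL.ne' huL
  have hqq : q * q' ≡ 1 [MOD L] := (Nat.ModEq.mul_left q hq'3).trans hu
  have hne : q ≠ q' := by omega
  have hQ2 : 8 ≤ L := by
    have h1 := Nat.le_of_dvd hL hQL
    have h2 : 0 < (b * c).natAbs := Int.natAbs_pos.2 (mul_ne_zero hb0 hc0)
    omega
  have hqodd : q ≠ 2 := by omega
  have hq'odd : q' ≠ 2 := by omega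
  have jq : ∀ z : ℤ, z ≠ 0 → 8 * z.natAbs ∣ Q → jacobiSym z r = -1 →
      jacobiSym z q = -1 ∧ jacobiSym z q' = -1 := by
    intro z hz hzQ hzr
    have h1 : jacobiSym z q = -1 := by
      rw [jac_mod (hq3.of_dvd hzQ) hodd, hzr]
    refine ⟨h1, ?_⟩
    have h2 : jacobiSym z (q * q') = 1 := jac_one (hqq.of_dvd (hzQ.trans hQL)) hz
    have : NeZero q := ⟨hq2.ne_zero⟩
    have : NeZero q' := ⟨hq'2.ne_zero⟩
    rw [jacobiSym.mul_right, h1] at h2
    omega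
  have ine : ∀ p : ℕ, p.Prime → p ∣ q * q' → Inert a b p := by
    intro p hp hpd
    have hj : ∀ z : ℤ, jacobiSym z q = -1 ∧ jacobiSym z q' = -1 → ¬ IsSquare (z : ZMod p) := by
      intro z hz
      rcases (Nat.Prime.dvd_mul hp).1 hpd with h | h
      · rw [(Nat.prime_dvd_prime_iff_eq hp hq2).1 h]
        exact ZMod.nonsquare_of_jacobiSym_eq_neg_one hz.1
      · rw [(Nat.prime_dvd_prime_iff_eq hp hq'2).1 h]
        exact ZMod.nonsquare_of_jacobiSym_eq_neg_one hz.2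
    refine ⟨hp, ?_, hj b (jq b hb0 dvb hrb), hj c (jq c hc0 dvc hrcc)⟩
    rcases (Nat.Prime.dvd_mul hp).1 hpd with h | h
    · rw [(Nat.prime_dvd_prime_iff_eq hp hq2).1 h]
      exact hqodd
    · rw [(Nat.prime_dvd_prime_iff_eq hp hq'2).1 h]
      exact hq'odd
  have hcop' : (q : ℕ).Coprime q' := (Nat.coprime_primes hq2 hq'2).2 hne
  obtain ⟨c₁, hc1, hc2, hc3⟩ := exists_non L b₀ q hq2 hqodd hqL hb₀
  have hLq' : (L * q).Coprime q' := by
    refine Nat.Coprime.mul_left ?_ hcop'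
    rw [Nat.coprime_comm, Nat.Prime.coprime_iff_not_dvd hq'2]
    intro h
    have := Nat.le_of_dvd hL h
    omega
  obtain ⟨b', hb'1, hb'2⟩ := Nat.chineseRemainder hLq' c₁ 1
  have hb'L : b' ≡ b₀ [MOD L] := (hb'1.of_dvd (Nat.dvd_mul_right _ _)).trans hc1
  have hb'q : b' ≡ c₁ [MOD q] := hb'1.of_dvd (Nat.dvd_mul_left _ _)
  have hcopb : b'.Coprime (L * q * q') := by
    refine Nat.Coprime.mul_right ?_ (coprime_of_modEq_one hb'2)
    rw [Nat.Coprime, hb'1.gcd_eq]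
    exact hc3
  refine ⟨L * q * q', b', q * q', ⟨q * q', by ring⟩, by
    have := hq2.pos
    have := hq'2.pos
    positivity, hb'L, hcopb, ⟨?_, ⟨?_, ?_⟩, ine, ?_⟩⟩
  · rw [Nat.squarefree_mul_iff]
    exact ⟨hcop', hq2.prime.squarefree, hq'2.prime.squarefree⟩
  · have h1 : q * q' ≡ 1 [MOD 8] := hqq.of_dvd ((Dvd.intro _ hQ.symm : 8 ∣ Q).trans hQL)
    exact h1
  · intro l hl _ hld
    have h1 : l ∣ Q := by
      rw [hQ]
      exact (Int.natCast_dvd.1 hld).mul_left 8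
    have h2 : q * q' ≡ 1 [MOD l] := hqq.of_dvd (h1.trans hQL)
    have h3 : ((q * q' : ℕ) : ZMod l) = ((1 : ℕ) : ZMod l) := (ZMod.natCast_eq_natCast_iff _ _ _).2 h2
    refine ⟨fun h => ?_, ?_⟩
    · have h4 := (coprime_of_modEq_one h2)
      rw [Nat.coprime_comm, Nat.Prime.coprime_iff_not_dvd hl] at h4
      exact h4 h
    · rw [h3]
      exact ⟨1, by simp⟩
  · intro p hp hpb
    have hpq : p ≡ c₁ [MOD q] := (hpb.of_dvd ⟨L * q', by ring⟩).trans hb'q
    have hpq' : p ≡ 1 [MOD q'] := (hpb.of_dvd (Nat.dvd_mul_left _ _)).trans hb'2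
    have hp4 : p % 4 = 1 := by
      have h1 : p ≡ 1 [MOD M] := ((hpb.of_dvd ⟨q * q', by ring⟩ : p ≡ b' [MOD L]).trans
        hb'L |>.of_dvd hML).trans hb₁
      have h4Q : 4 ∣ Q := ⟨2 * (b * c).natAbs, by rw [hQ]; ring⟩
      have h2 : p ≡ 1 [MOD 4] := h1.of_dvd (h4Q.trans hM)
      exact h2
    have hnd : ¬ p ∣ q * q' := by
      intro h
      rcases (Nat.Prime.dvd_mul hp).1 h with h1 | h1
      · have e := (Nat.prime_dvd_prime_iff_eq hp hq2).1 h1
        have h2 : nr q p = 1 := nr_eq_one_of hpq hc2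
        rw [e, nr_self] at h2
        exact absurd h2 (by decide)
      · have e := (Nat.prime_dvd_prime_iff_eq hp hq'2).1 h1
        have h4 := (coprime_of_modEq_one hpq')
        rw [e, Nat.coprime_self] at h4
        exact hq'2.one_lt.ne' h4
    refine ⟨hnd, ?_⟩
    have h1 : nr q p = 1 := nr_eq_one_of hpq hc2
    have h2 : nr q' p = 0 := nr_eq_zero_of hpq'
    have h3 : nq p q = 1 := by rw [← nr_nq, nr_symm hp hp4 hq2 hqodd, h1]
    have h4 : nq p q' = 0 := by rw [← nr_nq, nr_symm hp hp4 hq'2 hq'odd, h2]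
    have h5 : q * q' = ∏ l ∈ ({q, q'} : Finset ℕ), l := by rw [Finset.prod_pair hne]
    rw [h5, nq_prod hp (by
      intro l hl
      rcases Finset.mem_insert.1 hl with rfl | hl
      · exact hq2
      · rw [Finset.mem_singleton.1 hl]
        exact hq'2) (by
      intro hmem
      rcases Finset.mem_insert.1 hmem with h | h
      · exact hnd (h ▸ Nat.dvd_mul_right _ _)
      · rw [Finset.mem_singleton] at h
        exact hnd (h ▸ Nat.dvd_mul_left _ _)), Finset.sum_pair hne, h3, h4, add_zero]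

/-- **The auxiliary numbers of a finite family.** -/
theorem family (F : Finset (ℤ × ℤ)) (hF : ∀ e ∈ F, ¬ IsSquare e.2 ∧ ¬ IsSquare (e.1 ^ 2 - 4 * e.2)) (M : ℕ)
    (hM0 : 0 < M) (hM : ∀ e ∈ F, 8 * (e.2 * (e.1 ^ 2 - 4 * e.2)).natAbs ∣ M) :
    ∃ L b₀ : ℕ, M ∣ L ∧ 0 < L ∧ b₀ ≡ 1 [MOD M] ∧ b₀.Coprime L ∧ ∃ R : ℤ × ℤ → ℕ, ∀ e ∈ F,
      Flip e.1 e.2 L b₀ (R e) := by
  induction F using Finset.induction_on with
  | empty => exact ⟨M, 1, dvd_rfl, hM0, rfl, Nat.coprime_one_left M, fun _ => 1, fun e he =>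
      absurd he (Finset.notMem_empty _)⟩
  | insert e F he ih =>
    obtain ⟨L, b₀, h1, h2, h3, h4, R, h5⟩ := ih (fun e' he' => hF e' (Finset.mem_insert_of_mem he'))
      (fun e' he' => hM e' (Finset.mem_insert_of_mem he'))
    obtain ⟨nb, nc⟩ := hF e (Finset.mem_insert_self _ _)
    obtain ⟨L', b', R', k1, k2, k3, k4, k5⟩ := step nb nc (hM e (Finset.mem_insert_self _ _)) h1 h2 h3 h4
    refine ⟨L', b', h1.trans k1, k2, (k3.of_dvd h1).trans h3, k4, Function.update R e R', fun e' he' => ?_⟩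
    by_cases hee : e' = e
    · rw [hee, Function.update_self]
      exact k5
    · rw [Function.update_of_ne hee]
      exact (h5 e' (Finset.mem_of_mem_insert_of_ne he' hee)).mono k1 k3

end Pool.Agent.U974.GC
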