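import Mathlib
import Pool.Agent.U974.GC.Flp
import Pool.Agent.U974.PP.Col
import Pool.Agent.U974.TW.X49
import Pool.Agent.U115.GE.Dens

/-! # The kernel of the matrix of a twist by a part of a tuple of primes with the quadratic symbols of a graph -/

set_option autoImplicit false

namespace Pool.Agent.U974.GC

open Finset Matrix
open Pool.Agent.Y703.CQ (nr)
open Pool.Agent.Y698.SG (nq nq_prod)
open Pool.Agent.U115.GE (Res Inert Split HG kapG thetaG kap_eqG res_mul res_prod res_one)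
open Pool.Agent.U115.XP (matF matF_eqs nr_nq)
open Pool.Agent.R413.SQ.BOX (nr_self nr_symm)
open Pool.Agent.U974.TW (z2_neg sgn sgn_or nr_of_jac)

open scoped Classical

/-- the matrix `g + Laplacian` of the subgraph induced on `S` -/
noncomputable def lapG {m : ℕ} (G : SimpleGraph (Fin m)) (g : ZMod 2) (S : Finset (Fin m)) :
    Matrix (S : Set (Fin m)) (S : Set (Fin m)) (ZMod 2) :=
  g • (1 : Matrix (S : Set (Fin m)) (S : Set (Fin m)) (ZMod 2)) +
    (G.induce (S : Set (Fin m))).lapMatrix (ZMod 2)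

theorem lapG_apply {m : ℕ} (G : SimpleGraph (Fin m)) (g : ZMod 2) (S : Finset (Fin m))
    (v : ↥(S : Set (Fin m)) → ZMod 2) (i : (S : Set (Fin m))) :
    (lapG G g S *ᵥ v) i = g * v i + ∑ j : (S : Set (Fin m)), (if G.Adj i j then 1 else 0) * (v i + v j) := by
  unfold lapG
  rw [add_mulVec, Pi.add_apply, smul_mulVec, one_mulVec, SimpleGraph.lapMatrix_mulVec_apply,
    SimpleGraph.degree_eq_sum_if_adj, sub_eq_add_neg, z2_neg]
  have h1 : ∑ u ∈ (G.induce (S : Set (Fin m))).neighborFinset i, v u =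
      ∑ j : (S : Set (Fin m)), (if G.Adj i j then 1 else 0) * v j := by
    rw [SimpleGraph.neighborFinset_eq_filter, Finset.sum_filter]
    refine Finset.sum_congr rfl fun j _ => ?_
    simp only [SimpleGraph.comap_adj, Function.Embedding.subtype_apply]
    split_ifs <;> simp
  rw [h1, Finset.sum_mul, ← Finset.sum_add_distrib]
  congr 1
  refine Finset.sum_congr rfl fun j _ => ?_
  simp only [SimpleGraph.comap_adj, Function.Embedding.subtype_apply]
  ring

/-- the configuration of a tuple of primes for the curve `y² = x³ + a x² + b x` -/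
structure Cfg (a b : ℤ) {m : ℕ} (G : SimpleGraph (Fin m)) (f : Fin m → ℕ) (θ : ZMod 2) (R : ℕ) : Prop where
  inj : Function.Injective f
  split : ∀ i, Split a b (f i)
  sym : ∀ i j, nq (f i) (f j) = if G.Adj i j then 1 else 0
  theta : ∀ i, thetaG a b (f i) = θ
  sqf : Squarefree R
  res : Res a b R
  ine : ∀ q : ℕ, q.Prime → q ∣ R → Inert a b q
  ndvd : ∀ i, ¬ f i ∣ R
  flip : ∀ i, nq (f i) R = 1

variable {a b : ℤ} {m : ℕ} {G : SimpleGraph (Fin m)} {f : Fin m → ℕ} {θ : ZMod 2} {R : ℕ}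

/-- the auxiliary factor -/
def aux (R : ℕ) (β : Bool) : ℕ := if β then R else 1

theorem Cfg.auxP (h : Cfg a b G f θ R) (β : Bool) : Squarefree (aux R β) ∧ Res a b (aux R β) ∧
    (∀ q : ℕ, q.Prime → q ∣ aux R β → Inert a b q) ∧ (∀ i, ¬ f i ∣ aux R β) ∧
    ∀ i, nq (f i) (aux R β) = if β then 1 else 0 := by
  cases β
  · unfold aux
    simp only [Bool.false_eq_true, if_false]
    refine ⟨squarefree_one, res_one a b, fun q hq h1 => ?_, fun i h1 => ?_, fun i => ?_⟩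
    · exact absurd (Nat.dvd_one.1 h1) hq.ne_one
    · exact absurd (Nat.dvd_one.1 h1) (h.split i).1.ne_one
    · unfold nq
      rw [if_pos]
      exact ⟨1, by simp⟩
  · unfold aux
    simp only [if_true]
    exact ⟨h.sqf, h.res, h.ine, h.ndvd, h.flip⟩

theorem Cfg.hg (h : Cfg a b G f θ R) (hb : b ≠ 0) (hc : a ^ 2 - 4 * b ≠ 0) (β : Bool) (S : Finset (Fin m)) :
    HG a b (aux R β) (S.image f) := by
  obtain ⟨h1, h2, h3, h4, h5⟩ := h.auxP β
  refine ⟨hb, hc, ?_, ?_, ?_, ?_⟩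
  · refine Int.squarefree_natCast.2 ?_
    rw [Nat.squarefree_mul_iff]
    refine ⟨?_, ?_, h1⟩
    · refine Nat.Coprime.prod_left fun p hp => ?_
      obtain ⟨i, _, rfl⟩ := Finset.mem_image.1 hp
      exact (Nat.Prime.coprime_iff_not_dvd (h.split i).1).2 (h4 i)
    · refine Finset.squarefree_prod_of_pairwise_isCoprime (fun p hp q hq hpq => ?_) fun p hp => ?_
      · obtain ⟨i, _, rfl⟩ := Finset.mem_image.1 hp
        obtain ⟨j, _, rfl⟩ := Finset.mem_image.1 hq
        show IsRelPrime (f i) (f j)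
        rw [← Nat.coprime_iff_isRelPrime]
        exact (Nat.coprime_primes (h.split i).1 (h.split j).1).mpr hpq
      · obtain ⟨i, _, rfl⟩ := Finset.mem_image.1 hp
        exact (h.split i).1.squarefree
  · refine res_mul (res_prod fun p hp => ?_) h2
    obtain ⟨i, _, rfl⟩ := Finset.mem_image.1 hp
    exact (h.split i).2
  · intro p hp
    obtain ⟨i, _, rfl⟩ := Finset.mem_image.1 hp
    exact h.split i
  · intro q hq hqm
    exact (h3 q hq hqm).2

theorem Cfg.prod (h : Cfg a b G f θ R) (β : Bool) (S : Finset (Fin m)) :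
    aux R β * ∏ i ∈ S, f i = (∏ p ∈ S.image f, p) * aux R β := by
  rw [Finset.prod_image fun i _ j _ hij => h.inj hij, mul_comm]

/-- the rank of the matrix -/
theorem Cfg.rank (h : Cfg a b G f θ R) (β : Bool) (S : Finset (Fin m)) :
    (matF (thetaG a b) (aux R β).primeFactors (S.image f)).rank =
      (lapG G (θ + if β then 1 else 0) S).rank := by
  obtain ⟨h1, h2, h3, h4, h5⟩ := h.auxP β
  set Q := (aux R β).primeFactors with hQ
  have hinj : Function.Injective (fun i : (S : Set (Fin m)) =>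
      (⟨f i, Finset.mem_image_of_mem f (Finset.mem_coe.1 i.2)⟩ : (S.image f : Finset ℕ))) := by
    intro i j hij
    exact Subtype.ext (h.inj (congrArg Subtype.val hij))
  have hsur : Function.Surjective (fun i : (S : Set (Fin m)) =>
      (⟨f i, Finset.mem_image_of_mem f (Finset.mem_coe.1 i.2)⟩ : (S.image f : Finset ℕ))) := by
    rintro ⟨p, hp⟩
    obtain ⟨i, hi, rfl⟩ := Finset.mem_image.1 hp
    exact ⟨⟨i, Finset.mem_coe.2 hi⟩, rfl⟩
  set e : (S : Set (Fin m)) ≃ (S.image f : Finset ℕ) := Equiv.ofBijective _ ⟨hinj, hsur⟩ with he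
  have hei : ∀ i : (S : Set (Fin m)), ((e i : (S.image f : Finset ℕ)) : ℕ) = f i := fun i => rfl
  have key : (matF (thetaG a b) Q (S.image f)).submatrix e e = lapG G (θ + if β then 1 else 0) S := by
    refine Matrix.ext_of_mulVec_single fun k => ?_
    generalize (Pi.single k 1 : ↥(S : Set (Fin m)) → ZMod 2) = v
    funext i
    rw [lapG_apply, Matrix.submatrix_mulVec_equiv, Function.comp_apply, matF_eqs]
    have e1 : thetaG a b ((e i : (S.image f : Finset ℕ)) : ℕ) +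
        ∑ q ∈ Q, nq ((e i : (S.image f : Finset ℕ)) : ℕ) q = θ + if β then 1 else 0 := by
      rw [hei, h.theta, ← h5 i]
      congr 1
      have h6 : aux R β = ∏ q ∈ Q, q := (Nat.prod_primeFactors_of_squarefree h1).symm
      rw [h6, nq_prod (h.split i).1 (fun q hq => Nat.prime_of_mem_primeFactors hq) (fun hq => ?_)]
      exact h4 i (Nat.dvd_of_mem_primeFactors hq)
    rw [e1]
    have e2 : ((v ∘ e.symm) (e i)) = v i := by
      rw [Function.comp_apply, Equiv.symm_apply_apply]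
    rw [e2]
    congr 1
    rw [← e.sum_comp]
    refine Finset.sum_congr rfl fun j _ => ?_
    rw [Function.comp_apply, Equiv.symm_apply_apply, hei, hei, h.sym]
  rw [← key, Matrix.rank_submatrix]

/-- **The number of the elements of the kernel.** -/
theorem Cfg.kap (h : Cfg a b G f θ R) (hb : b ≠ 0) (hc : a ^ 2 - 4 * b ≠ 0) (β : Bool) (S : Finset (Fin m)) :
    kapG a b (aux R β) (S.image f) = 2 ^ (S.card - (lapG G (θ + if β then 1 else 0) S).rank) := by
  obtain ⟨h1, h2, h3, h4, h5⟩ := h.auxP β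
  rw [kap_eqG (h.hg hb hc β S) (Q := (aux R β).primeFactors) (fun q hq => Nat.prime_of_mem_primeFactors hq)
    (Nat.prod_primeFactors_of_squarefree h1).symm, h.rank β S, Finset.card_image_of_injective S h.inj]
  rw [Finset.disjoint_left]
  intro q hq hq'
  obtain ⟨i, _, rfl⟩ := Finset.mem_image.1 hq'
  exact h4 i (Nat.dvd_of_mem_primeFactors hq)

/-- the property of the tuple `h` -/
def AllCfg (F : Finset (ℤ × ℤ)) (N B : ℕ) (R : ℤ × ℤ → ℕ) {m : ℕ} (h : Fin m → ℕ) : Prop :=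
  ∀ G : SimpleGraph (Fin m), ∃ θ : ℤ × ℤ → ZMod 2, ∀ Y : ℕ,
    {n : ℕ | (∀ i, (n + h i).Prime ∧ n + h i ≡ 1 [MOD N]) ∧
      {p : ℕ | p.Prime ∧ |(p : ℤ) - n| ≤ Y}.ncard ≤ B ∧
      ∀ e ∈ F, Cfg e.1 e.2 G (fun i => n + h i) (θ e) (R e)}.Infinite

/-- **A positive proportion of the tuples has all the configurations, for a finite family of curves.** -/
theorem main (F : Finset (ℤ × ℤ)) (hF : ∀ e ∈ F, ¬ IsSquare e.2 ∧ ¬ IsSquare (e.1 ^ 2 - 4 * e.2)) (m N : ℕ)
    (hN : 0 < N) : ∃ R : ℤ × ℤ → ℕ, (∀ e ∈ F, Squarefree (R e) ∧ Res e.1 e.2 (R e) ∧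
      ∀ q : ℕ, q.Prime → q ∣ R e → Inert e.1 e.2 q) ∧ ∃ B : ℕ, ∀ δ : ℝ, 0 < δ → ∃ c : ℝ, 0 < c ∧
      ∃ x₀ : ℕ, ∀ x : ℕ, x₀ ≤ x → ∀ V : Finset ℕ, (∀ v ∈ V, v ≤ x) → δ * x ≤ V.card →
        c * (x : ℝ) ^ m ≤
          ({h : Fin m → ℕ | StrictMono h ∧ (∀ i, h i ∈ V) ∧ AllCfg F N B R h}.ncard : ℝ) := by
  have hne : ∀ e ∈ F, e.2 * (e.1 ^ 2 - 4 * e.2) ≠ 0 := by
    intro e he
    obtain ⟨nb, nc⟩ := hF e he
    refine mul_ne_zero (fun h => nb (by rw [h]; exact ⟨0, by norm_num⟩))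
      (fun h => nc (by rw [h]; exact ⟨0, by norm_num⟩))
  set M : ℕ := 8 * N * ∏ e ∈ F, (e.2 * (e.1 ^ 2 - 4 * e.2)).natAbs with hM
  have hM0 : 0 < M := by
    have : 0 < ∏ e ∈ F, (e.2 * (e.1 ^ 2 - 4 * e.2)).natAbs :=
      Finset.prod_pos fun e he => Int.natAbs_pos.2 (hne e he)
    positivity
  have hMe : ∀ e ∈ F, 8 * (e.2 * (e.1 ^ 2 - 4 * e.2)).natAbs ∣ M := by
    intro e he
    obtain ⟨k, hk⟩ := Finset.dvd_prod_of_mem (fun e : ℤ × ℤ => (e.2 * (e.1 ^ 2 - 4 * e.2)).natAbs) he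
    refine ⟨N * k, ?_⟩
    rw [hM, hk]
    ring
  obtain ⟨L, b₀, h1, h2, h3, h4, R, hR⟩ := family F hF M hM0 hMe
  refine ⟨R, fun e he => ⟨(hR e he).sqf, (hR e he).res, (hR e he).inert⟩, ?_⟩
  obtain ⟨B, hB⟩ := Pool.Agent.U974.PP.mainC (C := F → ZMod 2)
    (fun p => fun e : F => thetaG e.1.1 e.1.2 p) m L h2
  refine ⟨B, fun δ hδ => ?_⟩
  obtain ⟨c, hc0, x₀, hx⟩ := hB δ hδ
  refine ⟨c, hc0, x₀, fun x hxx V hV hVc => (hx x hxx V hV hVc).trans ?_⟩
  have hfin : {h : Fin m → ℕ | StrictMono h ∧ (∀ i, h i ∈ V) ∧ AllCfg F N B R h}.Finite := by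
    refine (Fintype.piFinset (fun _ : Fin m => V)).finite_toSet.subset ?_
    rintro h ⟨-, h2, -⟩
    rw [mem_coe, Fintype.mem_piFinset]
    exact h2
  have hsub : {h : Fin m → ℕ | StrictMono h ∧ (∀ i, h i ∈ V) ∧
      Pool.Agent.U974.PP.GoodC (fun p => fun e : F => thetaG e.1.1 e.1.2 p) L B h} ⊆
      {h : Fin m → ℕ | StrictMono h ∧ (∀ i, h i ∈ V) ∧ AllCfg F N B R h} := by
    rintro h ⟨g1, g2, g3⟩
    refine ⟨g1, g2, fun G => ?_⟩
    obtain ⟨c, hc'⟩ := g3 (sgn G) (sgn_or G) b₀ h4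
    refine ⟨fun e => if he : e ∈ F then c ⟨e, he⟩ else 0, fun Y => (hc' Y).mono ?_⟩
    rintro n ⟨k1, k2, k3⟩
    have hmod : ∀ i, n + h i ≡ 1 [MOD M] := fun i => ((k1 i).2.1.of_dvd h1).trans h3
    have hinj : Function.Injective (fun i => n + h i) :=
      fun i j hij => g1.injective (Nat.add_left_cancel hij)
    have hf8 : ∀ i, (n + h i) % 8 = 1 := fun i => (hmod i).of_dvd ⟨N * ∏ e ∈ F,
      (e.2 * (e.1 ^ 2 - 4 * e.2)).natAbs, by rw [hM]; ring⟩
    refine ⟨fun i => ⟨(k1 i).1, (hmod i).of_dvd ⟨8 * ∏ e ∈ F, (e.2 * (e.1 ^ 2 - 4 * e.2)).natAbs,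
      by rw [hM]; ring⟩⟩, k3, fun e he => ?_⟩
    have hlt : ∀ i j, i < j → nr (n + h i) (n + h j) = if G.Adj i j then 1 else 0 := fun i j hij =>
      nr_of_jac (k1 i).1 (k1 j).1 (fun h4 => hij.ne (hinj h4)) (k2 i j hij)
    refine ⟨hinj, fun i => ⟨(k1 i).1, hf8 i, fun l hl _ hld => ?_⟩, fun i j => ?_, fun i => ?_,
      (hR e he).sqf, (hR e he).res, (hR e he).inert,
      fun i => ((hR e he).flip _ (k1 i).1 (k1 i).2.1).1, fun i => ((hR e he).flip _ (k1 i).1 (k1 i).2.1).2⟩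
    · have h5 : l ∣ M := ((Int.natCast_dvd.1 hld).mul_left 8).trans (hMe e he)
      have h6 : n + h i ≡ 1 [MOD l] := (hmod i).of_dvd h5
      refine ⟨fun h => ?_, ?_⟩
      · have h7 := Pool.Agent.U974.TW.coprime_of_modEq_one h6
        rw [Nat.coprime_comm, Nat.Prime.coprime_iff_not_dvd hl] at h7
        exact h7 h
      · rw [(ZMod.natCast_eq_natCast_iff _ _ _).2 h6]
        exact ⟨1, by simp⟩
    · show nq (n + h i) (n + h j) = _
      rw [← nr_nq]
      rcases lt_trichotomy i j with hij | hij | hij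
      · exact hlt i j hij
      · rw [hij, nr_self, if_neg G.irrefl]
      · have h8 := hf8 i
        have h8' := hf8 j
        rw [nr_symm (k1 i).1 (by omega) (k1 j).1 (by omega), hlt j i hij]
        simp only [G.adj_comm]
    · show thetaG e.1 e.2 (n + h i) = _
      have h9 := congrFun (k1 i).2.2 ⟨e, he⟩
      simp only at h9
      rw [h9]
      simp only [dif_pos he]
  exact_mod_cast Set.ncard_le_ncard hsub hfin

end Pool.Agent.U974.GC
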