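import Pool.Agent.U974.GC.TT

/-! Configurations of `4 m` positions in four groups all of whose differences between different groups lie in a
set of more than two thirds of the numbers up to `H`, without a rare relation between any four positions. -/

set_option autoImplicit false

namespace Pool.Agent.U974.GC

open Finset Filter Topology
open Pool.Agent.TH899.UG.TD (QQ quad)
open Pool.Agent.N646.TT (PP emb loc4)

open Classical in
theorem config3 (m : ℕ) (hm : 1 ≤ m) (e : ℝ) (he0 : 0 < e) (he1 : e ≤ 1) : ∃ η : ℝ, 0 < η ∧ ∃ L : ℕ,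
    ∀ H : ℕ, L ≤ H → ∀ B : Finset ℕ, B ⊆ Icc 1 H → (2 / 3 + e) * (H : ℝ) ≤ B.card →
    ∀ Q : ℕ → (Fin 2 → ℤ) → Prop, (∀ d ∈ B, ((extQ 2 Q H d).card : ℝ) ≤ η * (H : ℝ) ^ 2) →
    ∃ (c₃ : ℕ) (r : Fin 4 → ℕ) (F : Fin (4 * m) × Fin 1 → ℕ),
      (∀ g, r g % 3 = 0 ∨ r g % 3 = c₃) ∧
      Function.Injective (pos (4 * m).factorial r F) ∧
      Fam (4 * m).factorial B r F ∧
      ∀ g : Fin 4 → Fin (4 * m), Function.Injective g →
        grp (g 0) < grp (g 1) → ¬ QP (k := 2) (4 * m).factorial r Q g (fun _ => 0) F := by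
  obtain ⟨M, hM⟩ : ∃ M, M = (4 * m).factorial := ⟨_, rfl⟩
  rw [← hM]
  have hM0 : 1 ≤ M := by rw [hM]; exact Nat.factorial_pos _
  have hM0R : (1 : ℝ) ≤ M := by exact_mod_cast hM0
  obtain ⟨ε₂, hε₂⟩ : ∃ ε₂ : ℝ, ε₂ = (e / 16) ^ 3 / 625 := ⟨_, rfl⟩
  have hε₂0 : 0 < ε₂ := by rw [hε₂]; positivity
  obtain ⟨δ, hδ⟩ : ∃ δ : ℝ, δ = ε₂ / 16 := ⟨_, rfl⟩
  have hδ0 : 0 < δ := by rw [hδ]; positivity
  obtain ⟨δ₁, hδ₁⟩ : ∃ δ₁ : ℝ, δ₁ = δ ^ ((m * 1) ^ 4) := ⟨_, rfl⟩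
  have hδ₁0 : 0 < δ₁ := by rw [hδ₁]; positivity
  obtain ⟨nn, hnn⟩ : ∃ nn : ℕ, nn = 4 * m * 1 := ⟨_, rfl⟩
  obtain ⟨Nn, hNn⟩ : ∃ Nn : ℝ, Nn = (Fintype.card (Fin 4 → Fin (4 * m)) : ℝ) + 1 := ⟨_, rfl⟩
  have hNn0 : 0 < Nn := by rw [hNn]; positivity
  obtain ⟨c, hc⟩ : ∃ c : ℝ, c = δ₁ / (4 * Nn * (M : ℝ) ^ 2) := ⟨_, rfl⟩
  have hc0 : 0 < c := by rw [hc]; positivity
  obtain ⟨L, hL⟩ := exists_nat_ge (16 / e + M + M * (4 * (nn : ℝ) ^ 2 / δ₁))
  refine ⟨c, hc0, L, fun H hH B hBI hBr Q hBQ => ?_⟩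
  have hH0 : (0 : ℝ) ≤ H := Nat.cast_nonneg _
  have h16e : 0 < 16 / e := by positivity
  have hM4 : 0 ≤ M * (4 * (nn : ℝ) ^ 2 / δ₁) := by positivity
  have hHbig : 16 / e + M + M * (4 * (nn : ℝ) ^ 2 / δ₁) ≤ (H : ℝ) := hL.trans (by exact_mod_cast hH)
  have hHM : M ≤ H := by
    have : (M : ℝ) ≤ H := by linarith
    exact_mod_cast this
  have heH : 16 ≤ e * H := by
    have h1 : 16 / e ≤ (H : ℝ) := by linarith
    rw [div_le_iff₀ he0] at h1
    linarith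
  obtain ⟨R, hR⟩ : ∃ R, R = ⌊e * H / 8⌋₊ := ⟨_, rfl⟩
  have hRu : (R : ℝ) ≤ e * H / 8 := by rw [hR]; exact Nat.floor_le (by positivity)
  have hRl : e * H / 16 ≤ (R : ℝ) := by
    have h1 : e * H / 8 < (R : ℝ) + 1 := by rw [hR]; exact Nat.lt_floor_add_one _
    linarith
  have hR1 : 1 ≤ R := by
    have h1 : (1 : ℝ) ≤ R := by linarith
    exact_mod_cast h1
  obtain ⟨c₃, hc₃, hq'⟩ := quad H R R hR1 B hBI (by
    have h1 : (2 * H + 9 * R + 3 * R + 20 : ℝ) ≤ 3 * B.card := by nlinarith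
    exact_mod_cast h1)
  have hcount : ε₂ * (5 * (H : ℝ)) ^ 4 ≤
      (((Fintype.piFinset (fun _ : Fin 4 => range (5 * H))).filter (fun f => PP B c₃ f)).card : ℝ) := by
    have h2 : (H : ℝ) * (QQ H B c₃).card ≤
      (((Fintype.piFinset (fun _ : Fin 4 => range (5 * H))).filter (fun f => PP B c₃ f)).card : ℝ) := by
      exact_mod_cast emb H c₃ B
    refine le_trans ?_ h2
    have h3 : (R : ℝ) * (R * R) ≤ (QQ H B c₃).card := by exact_mod_cast hq'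
    have h4 : (e * H / 16) ^ 3 ≤ (R : ℝ) ^ 3 := by gcongr
    have h5 : (R : ℝ) ^ 3 = R * (R * R) := by ring
    have h6 : ε₂ * (5 * (H : ℝ)) ^ 4 = H * (e * H / 16) ^ 3 := by rw [hε₂]; ring
    rw [h6]
    exact mul_le_mul_of_nonneg_left (by linarith) hH0
  obtain ⟨T, hT⟩ : ∃ T, T = 5 * H / M + 1 := ⟨_, rfl⟩
  have hT1 : 1 ≤ T := by
    rw [hT]
    exact Nat.le_add_left 1 _
  have hMT : 5 * H ≤ M * T := by
    rw [hT]
    exact (Nat.lt_mul_div_succ _ (by omega)).le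
  have hMT2 : M * T ≤ 5 * H + M := by
    rw [hT, mul_add, mul_one]
    have := Nat.mul_div_le (5 * H) M
    omega
  obtain ⟨r, hr1, hr2⟩ := residues H M T hM0 hMT (PP B c₃)
  have hdens : δ * (T : ℝ) ^ 4 ≤ (((Fintype.piFinset (fun _ : Fin 4 => range T)).filter
      (fun t => PP B c₃ (fun g => r g + M * t g))).card : ℝ) := by
    have h1 : ε₂ * (5 * (H : ℝ)) ^ 4 ≤ (M : ℝ) ^ 4 *
        (((Fintype.piFinset (fun _ : Fin 4 => range T)).filter
          (fun t => PP B c₃ (fun g => r g + M * t g))).card : ℝ) := by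
      refine hcount.trans ?_
      exact_mod_cast hr2
    have h2 : (M : ℝ) * T ≤ 2 * (5 * (H : ℝ)) := by
      have : M * T ≤ 2 * (5 * H) := by omega
      exact_mod_cast this
    have h3 : ((M : ℝ) * T) ^ 4 ≤ (2 * (5 * (H : ℝ))) ^ 4 := pow_le_pow_left₀ (by positivity) h2 4
    have h4 : (M : ℝ) ^ 4 * (δ * (T : ℝ) ^ 4) ≤ ε₂ * (5 * (H : ℝ)) ^ 4 := by
      calc (M : ℝ) ^ 4 * (δ * (T : ℝ) ^ 4) = δ * ((M : ℝ) * T) ^ 4 := by ring
        _ ≤ δ * (2 * (5 * (H : ℝ))) ^ 4 := mul_le_mul_of_nonneg_left h3 hδ0.le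
        _ = _ := by rw [hδ]; ring
    exact le_of_mul_le_mul_left (h4.trans h1) (by positivity)
  have hbox := fam_many m 1 T M c₃ (by omega) B r δ hδ0.le hdens
  rw [← hδ₁, ← hnn] at hbox
  have hTR : (1 : ℝ) ≤ T := by exact_mod_cast hT1
  obtain ⟨P, hP⟩ : ∃ P, P = Fintype.piFinset (fun _ : Fin (4 * m) × Fin 1 => range T) := ⟨_, rfl⟩
  rw [← hP] at hbox
  obtain ⟨X2, hX2⟩ : ∃ X2, X2 = P.filter (fun F => ¬ Function.Injective F) := ⟨_, rfl⟩
  have hcardι : Fintype.card (Fin (4 * m) × Fin 1) = nn := by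
    rw [Fintype.card_prod, Fintype.card_fin, Fintype.card_fin, hnn]
  have hX2c : (X2.card : ℝ) ≤ δ₁ / 4 * (T : ℝ) ^ nn := by
    have h1 := ninj (ι := Fin (4 * m) × Fin 1) T
    rw [← hP, ← hX2, hcardι] at h1
    have h2 : 4 * (nn : ℝ) ^ 2 / δ₁ ≤ T := by
      have h3 : (M : ℝ) * (4 * (nn : ℝ) ^ 2 / δ₁) ≤ M * T := by
        have h4 : (H : ℝ) ≤ M * T := by
          have : H ≤ M * T := by omega
          exact_mod_cast this
        linarith
      exact le_of_mul_le_mul_left h3 (by linarith)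
    rw [div_le_iff₀ hδ₁0] at h2
    have h3 : (X2.card : ℝ) * T ≤ (δ₁ / 4 * (T : ℝ) ^ nn) * T := by
      refine h1.trans ?_
      have h4 : (0 : ℝ) ≤ (T : ℝ) ^ nn := by positivity
      nlinarith
    exact le_of_mul_le_mul_right h3 (by linarith)
  obtain ⟨Y, hY⟩ : ∃ Y : (Fin 4 → Fin (4 * m)) →
      Finset (Fin (4 * m) × Fin 1 → ℕ), Y = fun w => P.filter (fun F => Fam M B r F ∧
        Function.Injective F ∧ QP (k := 2) M r Q w (fun _ => 0) F) := ⟨_, rfl⟩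
  obtain ⟨I, hI⟩ : ∃ I : Finset (Fin 4 → Fin (4 * m)),
      I = univ.filter (fun w => Function.Injective w ∧ grp (w 0) < grp (w 1)) := ⟨_, rfl⟩
  have hYc : ∀ w ∈ I, ((Y w).card : ℝ) ≤ δ₁ / (4 * Nn) * (T : ℝ) ^ nn := by
    intro w hw
    rw [hI] at hw
    obtain ⟨-, hw1, hw2⟩ := mem_filter.1 hw
    have h1 := key2 m 1 T M 2 H B r Q (c * (H : ℝ) ^ 2) hM0
      (fun d hd => mem_Icc.1 (hBI hd)) hBQ (by positivity) w hw1 hw2 (fun _ => 0)
    rw [← hP, ← hnn] at h1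
    have h1' : ((Y w).card : ℝ) * (T : ℝ) ^ 2 ≤ c * (H : ℝ) ^ 2 * (T : ℝ) ^ nn := by
      rw [hY]
      exact h1
    have h2 : (H : ℝ) ^ 2 ≤ (M : ℝ) ^ 2 * (T : ℝ) ^ 2 := by
      rw [← mul_pow]
      apply pow_le_pow_left₀ hH0
      have : H ≤ M * T := by omega
      exact_mod_cast this
    have h3 : c * (M : ℝ) ^ 2 = δ₁ / (4 * Nn) := by
      rw [hc]
      field_simp
    have h4 : ((Y w).card : ℝ) * (T : ℝ) ^ 2 ≤ (δ₁ / (4 * Nn) * (T : ℝ) ^ nn) * (T : ℝ) ^ 2 := by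
      refine h1'.trans ?_
      calc c * (H : ℝ) ^ 2 * (T : ℝ) ^ nn ≤ c * ((M : ℝ) ^ 2 * (T : ℝ) ^ 2) * (T : ℝ) ^ nn := by
            apply mul_le_mul_of_nonneg_right _ (by positivity)
            exact mul_le_mul_of_nonneg_left h2 hc0.le
        _ = (c * (M : ℝ) ^ 2) * (T : ℝ) ^ nn * (T : ℝ) ^ 2 := by ring
        _ = _ := by rw [h3]
    exact le_of_mul_le_mul_right h4 (by positivity)
  have hX3c : ((I.biUnion Y).card : ℝ) ≤ δ₁ / 4 * (T : ℝ) ^ nn := by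
    have h1 : ((I.biUnion Y).card : ℝ) ≤ ∑ w ∈ I, ((Y w).card : ℝ) := by
      exact_mod_cast card_biUnion_le
    refine h1.trans ((sum_le_sum hYc).trans ?_)
    rw [sum_const, nsmul_eq_mul]
    have h2 : (I.card : ℝ) ≤ Nn := by
      have h3 : I.card ≤ Fintype.card (Fin 4 → Fin (4 * m)) := by
        rw [← card_univ]
        exact card_le_card (subset_univ _)
      rw [hNn]
      have : (I.card : ℝ) ≤ (Fintype.card (Fin 4 → Fin (4 * m)) : ℝ) := by exact_mod_cast h3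
      linarith
    calc (I.card : ℝ) * (δ₁ / (4 * Nn) * (T : ℝ) ^ nn) ≤ Nn * (δ₁ / (4 * Nn) * (T : ℝ) ^ nn) :=
          mul_le_mul_of_nonneg_right h2 (by positivity)
      _ = _ := by field_simp
  obtain ⟨F, hF1, hF2, hF3, hF4⟩ : ∃ F ∈ P, Fam M B r F ∧ Function.Injective F ∧ F ∉ I.biUnion Y := by
    by_contra hno
    push Not at hno
    have hcover : P.filter (fun F => Fam M B r F) ⊆ X2 ∪ I.biUnion Y := by
      intro F hF
      obtain ⟨hF1, hF2⟩ := mem_filter.1 hF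
      by_cases h4 : Function.Injective F
      · exact mem_union_right _ (hno F hF1 hF2 h4)
      · apply mem_union_left
        rw [hX2]
        exact mem_filter.2 ⟨hF1, h4⟩
    have hfin : ((P.filter (fun F => Fam M B r F)).card : ℝ) ≤ X2.card + (I.biUnion Y).card := by
      have h1 := (card_le_card hcover).trans (card_union_le _ _)
      exact_mod_cast h1
    have h3 : 0 < δ₁ * (T : ℝ) ^ nn := by positivity
    linarith
  have hne : ((Fintype.piFinset (fun _ : Fin 4 => range T)).filter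
      (fun t => PP B c₃ (fun g => r g + M * t g))).Nonempty := by
    rw [← card_pos]
    have h1 : (0 : ℝ) < (((Fintype.piFinset (fun _ : Fin 4 => range T)).filter
      (fun t => PP B c₃ (fun g => r g + M * t g))).card : ℝ) := lt_of_lt_of_le (by positivity) hdens
    exact_mod_cast h1
  obtain ⟨t, ht⟩ := hne
  obtain ⟨-, -, ht3⟩ := mem_filter.1 ht
  have h3M : 3 ∣ M := by
    rw [hM]
    refine (Nat.prime_three.dvd_factorial).2 ?_
    omega
  refine ⟨c₃, r, F, fun g => ?_, pos_inj hM0 hF2 hF3, hF2, ?_⟩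
  · have h1 := ht3 g
    have h2 : (r g + M * t g) % 3 = r g % 3 := by
      obtain ⟨m, hm⟩ := h3M
      rw [hm, mul_assoc, Nat.add_mul_mod_self_left]
    rw [h2] at h1
    exact h1
  · intro g hg h01 hQ
    apply hF4
    refine mem_biUnion.2 ⟨g, ?_, ?_⟩
    · rw [hI]
      exact mem_filter.2 ⟨mem_univ _, hg, h01⟩
    · rw [hY]
      exact mem_filter.2 ⟨hF1, hF2, hF3, hQ⟩

end Pool.Agent.U974.GC
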