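import Pool.Agent.U974.GC.TT

/-! Counting the pairs of integers in a rare relation with a number `d` without small prime factors. -/

set_option autoImplicit false

namespace Pool.Agent.U974.GC

open Finset Filter Topology
open Pool.Agent.N646.TT (PP emb loc4)

/-- a set of integers of `[-H, H]` which are congruent modulo `q` -/
theorem cong_card (H q : ℕ) (hq : 1 ≤ q) (S : Finset ℤ) (hS : S ⊆ Icc (-(H : ℤ)) H)
    (h : ∀ x ∈ S, ∀ y ∈ S, (q : ℤ) ∣ x - y) : S.card ≤ 2 * H / q + 1 := by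
  have hq0 : (0 : ℤ) < q := by exact_mod_cast hq
  have h1 : S.card ≤ (range (2 * H / q + 1)).card := by
    apply card_le_card_of_injOn (fun x : ℤ => ((x + H) / q).toNat)
    · intro x hx
      have hx2 := mem_Icc.1 (hS (mem_coe.1 hx))
      rw [mem_coe, mem_range, Nat.lt_succ_iff]
      have h2 : (x + H) / (q : ℤ) ≤ ((2 * H / q : ℕ) : ℤ) := by
        rw [Int.natCast_div]
        apply Int.ediv_le_ediv hq0
        push_cast
        omega
      exact Int.toNat_le.2 h2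
    · intro x hx y hy hxy
      have hx2 := mem_Icc.1 (hS (mem_coe.1 hx))
      have hy2 := mem_Icc.1 (hS (mem_coe.1 hy))
      have hx3 : 0 ≤ (x + H) / (q : ℤ) := Int.ediv_nonneg (by omega) hq0.le
      have hy3 : 0 ≤ (y + H) / (q : ℤ) := Int.ediv_nonneg (by omega) hq0.le
      have h2 : (x + H) / (q : ℤ) = (y + H) / (q : ℤ) := by
        have hxy' : ((x + H) / (q : ℤ)).toNat = ((y + H) / (q : ℤ)).toNat := hxy
        omega
      have h3 : (x + H) % (q : ℤ) = (y + H) % (q : ℤ) := by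
        apply Int.emod_emod_of_dvd _ (dvd_refl _) |>.symm.trans
        rw [Int.emod_emod_of_dvd _ (dvd_refl _)]
        apply Int.emod_eq_emod_iff_emod_sub_eq_zero.2
        apply Int.emod_eq_zero_of_dvd
        have := h x (mem_coe.1 hx) y (mem_coe.1 hy)
        have e : x + H - (y + H) = x - y := by ring
        rwa [e]
      have h4 := Int.emod_add_mul_ediv (x + H) q
      have h5 := Int.emod_add_mul_ediv (y + H) q
      rw [h2, h3] at h4
      linarith
  rwa [card_range] at h1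

theorem cong_real (H q : ℕ) (hq : 1 ≤ q) (hqH : q ≤ H) (S : Finset ℤ) (hS : S ⊆ Icc (-(H : ℤ)) H)
    (h : ∀ x ∈ S, ∀ y ∈ S, (q : ℤ) ∣ x - y) : (S.card : ℝ) ≤ 3 * H / q := by
  have h1 := cong_card H q hq S hS h
  have hq0 : (0 : ℝ) < q := by exact_mod_cast hq
  have h2 : (S.card : ℝ) ≤ ((2 * H / q : ℕ) : ℝ) + 1 := by exact_mod_cast h1
  have h3 : ((2 * H / q : ℕ) : ℝ) ≤ ((2 * H : ℕ) : ℝ) / q := Nat.cast_div_le
  have h4 : (1 : ℝ) ≤ H / q := by
    rw [le_div_iff₀ hq0, one_mul]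
    exact_mod_cast hqH
  push_cast at h3
  have e : 3 * (H : ℝ) / q = 2 * H / q + H / q := by ring
  linarith

/-- the relation -/
def Rel (z : ℕ) (b : ℕ) (r c : ℕ → ℕ) (d : ℕ) (t : Fin 2 → ℤ) : Prop :=
  ∃ q : ℕ, q.Prime ∧ z < q ∧ q ∣ r d ∧ ((q : ℤ) ∣ t 0 ∨ (q : ℤ) ∣ (c d : ℤ) + b * t 0 ∨ (q : ℤ) ∣ t 0 - t 1)

/-- the weight of the large prime factors -/
noncomputable def wt (z d : ℕ) : ℝ := ∑ q ∈ d.primeFactors.filter (fun q => z < q), 27 / (q : ℝ)

open Classical in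
theorem rel_card (z b H d : ℕ) (r c : ℕ → ℕ) (hd1 : 1 ≤ d) (hdH : d ≤ H) (hr : r d ∣ d)
    (hc : (c d).Coprime (r d)) :
    ((extQ 2 (Rel z b r c) H d).card : ℝ) ≤ wt z d * (H : ℝ) ^ 2 := by
  have hH1 : 1 ≤ H := hd1.trans hdH
  have hH1R : (1 : ℝ) ≤ H := by exact_mod_cast hH1
  obtain ⟨I, hI⟩ : ∃ I : Finset ℤ, I = Icc (-(H : ℤ)) H := ⟨_, rfl⟩
  have hIc : (I.card : ℝ) ≤ 3 * H := by
    have h1 : I.card = 2 * H + 1 := by
      rw [hI, Int.card_Icc]
      omega
    rw [h1]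
    push_cast
    linarith
  obtain ⟨A, hA⟩ : ∃ A : ℕ → Finset (ℤ × ℤ), A = fun q : ℕ => (I ×ˢ I).filter (fun x => (q : ℤ) ∣ x.1 ∨
    (q : ℤ) ∣ (c d : ℤ) + b * x.1 ∨ (q : ℤ) ∣ x.1 - x.2) := ⟨_, rfl⟩
  have h1 : (extQ 2 (Rel z b r c) H d).card ≤
      (((r d).primeFactors.filter (fun q => z < q)).biUnion A).card := by
    apply card_le_card_of_injOn (fun t : Fin 2 → ℤ => (t 0, t 1))
    · intro t ht
      obtain ⟨h2, -, -, q, hq1, hq2, hq3, hq4⟩ := mem_filter.1 (mem_coe.1 ht)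
      have h3 := Fintype.mem_piFinset.1 h2
      rw [mem_coe, mem_biUnion]
      refine ⟨q, mem_filter.2 ⟨Nat.mem_primeFactors.2 ⟨hq1, hq3, ?_⟩, hq2⟩, ?_⟩
      · exact (Nat.pos_of_dvd_of_pos hr hd1).ne'
      · rw [hA]
        refine mem_filter.2 ⟨mem_product.2 ⟨?_, ?_⟩, hq4⟩
        · rw [hI]; exact h3 0
        · rw [hI]; exact h3 1
    · intro t _ t' _ htt
      have h2 : t 0 = t' 0 := congrArg Prod.fst htt
      have h3 : t 1 = t' 1 := congrArg Prod.snd htt
      funext i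
      fin_cases i
      · exact h2
      · exact h3
  have h2 : ∀ q ∈ (r d).primeFactors.filter (fun q => z < q), ((A q).card : ℝ) ≤ 27 / (q : ℝ) * (H : ℝ) ^ 2 := by
    intro q hq
    obtain ⟨hq1, hq2⟩ := mem_filter.1 hq
    obtain ⟨hqp, hqr, -⟩ := Nat.mem_primeFactors.1 hq1
    have hq0 : 1 ≤ q := hqp.one_le
    have hqH : q ≤ H := (Nat.le_of_dvd (by omega) (hqr.trans hr)).trans hdH
    have hqR : (0 : ℝ) < q := by exact_mod_cast hq0
    obtain ⟨S1, hS1⟩ : ∃ S1, S1 = I.filter (fun x => (q : ℤ) ∣ x) := ⟨_, rfl⟩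
    obtain ⟨S2, hS2⟩ : ∃ S2, S2 = I.filter (fun x => (q : ℤ) ∣ (c d : ℤ) + b * x) := ⟨_, rfl⟩
    obtain ⟨S3, hS3⟩ : ∃ S3 : ℤ → Finset ℤ, S3 = fun y => I.filter (fun x => (q : ℤ) ∣ x - y) := ⟨_, rfl⟩
    have c1 : (S1.card : ℝ) ≤ 3 * H / q := by
      apply cong_real H q hq0 hqH
      · rw [hS1, ← hI]; exact filter_subset _ _
      · intro x hx y hy
        rw [hS1] at hx hy
        exact dvd_sub (mem_filter.1 hx).2 (mem_filter.1 hy).2
    have c2 : (S2.card : ℝ) ≤ 3 * H / q := by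
      apply cong_real H q hq0 hqH
      · rw [hS2, ← hI]; exact filter_subset _ _
      · intro x hx y hy
        rw [hS2] at hx hy
        have h3 := dvd_sub (mem_filter.1 hx).2 (mem_filter.1 hy).2
        have e : ((c d : ℤ) + b * x) - ((c d : ℤ) + b * y) = b * (x - y) := by ring
        rw [e] at h3
        rcases (Nat.prime_iff_prime_int.1 hqp).dvd_or_dvd h3 with h4 | h4
        · exfalso
          have h5 : (q : ℤ) ∣ (c d : ℤ) := by
            have h6 := (mem_filter.1 hx).2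
            have e2 : (c d : ℤ) = ((c d : ℤ) + b * x) - b * x := by ring
            rw [e2]
            exact dvd_sub h6 (h4.mul_right _)
          have h6 : q ∣ c d := by exact_mod_cast h5
          have h7 : q ∣ Nat.gcd (c d) (r d) := Nat.dvd_gcd h6 hqr
          rw [hc] at h7
          exact hqp.one_lt.ne' (Nat.dvd_one.1 h7)
        · exact h4
    have c3 : ∀ y, ((S3 y).card : ℝ) ≤ 3 * H / q := by
      intro y
      apply cong_real H q hq0 hqH
      · rw [hS3, ← hI]; exact filter_subset _ _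
      · intro x hx x' hx'
        rw [hS3] at hx hx'
        have h3 := dvd_sub (mem_filter.1 hx).2 (mem_filter.1 hx').2
        have e : (x - y) - (x' - y) = x - x' := by ring
        rwa [e] at h3
    have hsub : A q ⊆ (S1 ×ˢ I) ∪ ((S2 ×ˢ I) ∪ I.biUnion (fun y => (S3 y).image (fun x => (x, y)))) := by
      rintro ⟨x, y⟩ hx
      rw [hA] at hx
      obtain ⟨h3, h4⟩ := mem_filter.1 hx
      obtain ⟨h5, h6⟩ := mem_product.1 h3
      rcases h4 with h4 | h4 | h4
      · apply mem_union_left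
        rw [hS1]
        exact mem_product.2 ⟨mem_filter.2 ⟨h5, h4⟩, h6⟩
      · apply mem_union_right
        apply mem_union_left
        rw [hS2]
        exact mem_product.2 ⟨mem_filter.2 ⟨h5, h4⟩, h6⟩
      · apply mem_union_right
        apply mem_union_right
        refine mem_biUnion.2 ⟨y, h6, mem_image.2 ⟨x, ?_, rfl⟩⟩
        rw [hS3]
        exact mem_filter.2 ⟨h5, h4⟩
    have hn : (A q).card ≤ S1.card * I.card + (S2.card * I.card + ∑ y ∈ I, (S3 y).card) := by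
      refine (card_le_card hsub).trans ((card_union_le _ _).trans ?_)
      rw [card_product]
      refine Nat.add_le_add_left ((card_union_le _ _).trans ?_) _
      rw [card_product]
      refine Nat.add_le_add_left (card_biUnion_le.trans (sum_le_sum fun y _ => card_image_le)) _
    have hn' : ((A q).card : ℝ) ≤ S1.card * I.card + (S2.card * I.card + ∑ y ∈ I, ((S3 y).card : ℝ)) := by
      exact_mod_cast hn
    have h3 : ∑ y ∈ I, ((S3 y).card : ℝ) ≤ I.card * (3 * H / q) := by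
      calc ∑ y ∈ I, ((S3 y).card : ℝ) ≤ ∑ _y ∈ I, (3 * (H : ℝ) / q) := sum_le_sum fun y _ => c3 y
        _ = _ := by rw [sum_const, nsmul_eq_mul]
    have hIc0 : (0 : ℝ) ≤ I.card := Nat.cast_nonneg _
    have hq3 : (0 : ℝ) ≤ 3 * H / q := by positivity
    have e1 : (S1.card : ℝ) * I.card ≤ (3 * H / q) * (3 * H) := mul_le_mul c1 hIc hIc0 hq3
    have e2 : (S2.card : ℝ) * I.card ≤ (3 * H / q) * (3 * H) := mul_le_mul c2 hIc hIc0 hq3
    have e3 : (I.card : ℝ) * (3 * H / q) ≤ (3 * H) * (3 * H / q) := mul_le_mul_of_nonneg_right hIc hq3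
    have e4 : 27 / (q : ℝ) * (H : ℝ) ^ 2 = (3 * H / q) * (3 * H) + ((3 * H / q) * (3 * H) +
      (3 * H) * (3 * H / q)) := by field_simp; ring
    rw [e4]
    linarith
  have h3 : ((extQ 2 (Rel z b r c) H d).card : ℝ) ≤
      ∑ q ∈ (r d).primeFactors.filter (fun q => z < q), ((A q).card : ℝ) := by
    have := h1.trans card_biUnion_le
    exact_mod_cast this
  refine h3.trans ((sum_le_sum h2).trans ?_)
  rw [← sum_mul]
  apply mul_le_mul_of_nonneg_right _ (by positivity)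
  unfold wt
  apply sum_le_sum_of_subset_of_nonneg
  · intro q hq
    obtain ⟨hq1, hq2⟩ := mem_filter.1 hq
    obtain ⟨hqp, hqr, -⟩ := Nat.mem_primeFactors.1 hq1
    exact mem_filter.2 ⟨Nat.mem_primeFactors.2 ⟨hqp, hqr.trans hr, by omega⟩, hq2⟩
  · intro q _ _
    positivity

/-- few numbers have a large weight -/
theorem wt_sum (z H : ℕ) (hz : 1 ≤ z) : ∑ d ∈ Icc 1 H, wt z d ≤ 27 * H / z := by
  classical
  have hz0 : (0 : ℝ) < z := by exact_mod_cast hz
  have h1 : ∀ d ∈ Icc 1 H, wt z d ≤ ∑ q ∈ Ioc z H, if q ∣ d then 27 / (q : ℝ) else 0 := by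
    intro d hd
    obtain ⟨hd1, hd2⟩ := mem_Icc.1 hd
    rw [← sum_filter]
    unfold wt
    apply sum_le_sum_of_subset_of_nonneg
    · intro q hq
      obtain ⟨hq1, hq2⟩ := mem_filter.1 hq
      obtain ⟨hqp, hqr, -⟩ := Nat.mem_primeFactors.1 hq1
      exact mem_filter.2 ⟨mem_Ioc.2 ⟨hq2, (Nat.le_of_dvd (by omega) hqr).trans hd2⟩, hqr⟩
    · intro q _ _
      positivity
  refine (sum_le_sum h1).trans ?_
  rw [sum_comm]
  have h2 : ∀ q ∈ Ioc z H, ∑ d ∈ Icc 1 H, (if q ∣ d then 27 / (q : ℝ) else 0) ≤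
      27 * H * ((q : ℝ) ^ 2)⁻¹ := by
    intro q hq
    have hq0 : 0 < q := by
      have := mem_Ioc.1 hq
      omega
    have hq0R : (0 : ℝ) < q := by exact_mod_cast hq0
    rw [← sum_filter, sum_const, nsmul_eq_mul]
    have h3 : ((Icc 1 H).filter (fun d => q ∣ d)).card = H / q := by
      have := Nat.Ioc_filter_dvd_card_eq_div H q
      rw [← this]
      congr 1
    rw [h3]
    have h4 : ((H / q : ℕ) : ℝ) ≤ (H : ℝ) / q := Nat.cast_div_le
    calc ((H / q : ℕ) : ℝ) * (27 / (q : ℝ)) ≤ (H : ℝ) / q * (27 / (q : ℝ)) :=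
          mul_le_mul_of_nonneg_right h4 (by positivity)
      _ = _ := by field_simp
  refine (sum_le_sum h2).trans ?_
  rw [← mul_sum]
  have h3 : ∑ q ∈ Ioc z H, ((q : ℝ) ^ 2)⁻¹ ≤ 1 / z := by
    rcases Nat.lt_or_ge H z with h | h
    · rw [Ioc_eq_empty (by omega), sum_empty]
      positivity
    · have h4 := sum_Ioc_inv_sq_le_sub (α := ℝ) (k := z) (n := H) (by omega) h
      have h5 : (0 : ℝ) ≤ (H : ℝ)⁻¹ := by positivity
      rw [one_div]
      linarith
  calc 27 * (H : ℝ) * ∑ q ∈ Ioc z H, ((q : ℝ) ^ 2)⁻¹ ≤ 27 * H * (1 / z) :=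
        mul_le_mul_of_nonneg_left h3 (by positivity)
    _ = _ := by ring

open Classical in
theorem wt_few (z H : ℕ) (hz : 1 ≤ z) (η : ℝ) (hη : 0 < η) :
    (((Icc 1 H).filter (fun d => η < wt z d)).card : ℝ) ≤ 27 * H / (z * η) := by
  have hz0 : (0 : ℝ) < z := by exact_mod_cast hz
  have h1 := wt_sum z H hz
  have h2 : η * (((Icc 1 H).filter (fun d => η < wt z d)).card : ℝ) ≤ ∑ d ∈ Icc 1 H, wt z d := by
    calc η * (((Icc 1 H).filter (fun d => η < wt z d)).card : ℝ)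
        = ∑ _d ∈ (Icc 1 H).filter (fun d => η < wt z d), η := by rw [sum_const, nsmul_eq_mul, mul_comm]
      _ ≤ ∑ d ∈ (Icc 1 H).filter (fun d => η < wt z d), wt z d :=
          sum_le_sum fun d hd => (mem_filter.1 hd).2.le
      _ ≤ _ := by
          apply sum_le_sum_of_subset_of_nonneg (filter_subset _ _)
          intro d _ _
          unfold wt
          positivity
  rw [le_div_iff₀ (by positivity)]
  rw [le_div_iff₀ hz0] at h1
  nlinarith

end Pool.Agent.U974.GC
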