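import Pool.Agent.Y827.HN.Forced

/-! Exact patterns of primes among the values of `4 K` linear forms in four groups, with two groups hit. -/

set_option autoImplicit false

namespace Pool.Agent.U974.GC

open Finset Filter Topology

open Classical in
/-- the `2 ≤ n ≤ N` such that exactly the forms of `P` are prime at `n` and no form of `U` is prime -/
noncomputable def ex {K : ℕ} (H : Fin 4 → Fin K → ℤ × ℤ) (U : Finset (ℤ × ℤ))
    (P : Finset (Fin 4 × Fin K)) (N : ℕ) : Finset ℕ :=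
  (Icc 2 N).filter (fun n : ℕ =>
    (∀ z : Fin 4 × Fin K, ((H z.1 z.2).1 * (n : ℤ) + (H z.1 z.2).2).toNat.Prime ↔ z ∈ P) ∧
    ∀ u ∈ U, ¬ (u.1 * (n : ℤ) + u.2).toNat.Prime)

theorem exact2 : ∃ K : ℕ, 1 ≤ K ∧
    ∀ H : Fin 4 → Fin K → ℤ × ℤ, Function.Injective (fun x : Fin 4 × Fin K => H x.1 x.2) →
    (∀ g i, 0 < (H g i).1 ∧ IsCoprime (H g i).1 (H g i).2) →
    (∀ p : ℕ, p.Prime → p ≤ 4 * K → ∃ r : ℤ, ∀ g i, ¬ (p : ℤ) ∣ (H g i).1 * r + (H g i).2) →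
    ∀ U : Finset (ℤ × ℤ), (∀ u ∈ U, 0 < u.1 ∧ IsCoprime u.1 u.2 ∧ ∀ g i, u ≠ H g i) →
    ∃ C : ℕ, ∀ᶠ N : ℕ in atTop, ∃ P : Finset (Fin 4 × Fin K), 2 ≤ (P.image Prod.fst).card ∧
      (N : ℝ) / (Real.log N) ^ C ≤ ((ex H U P N).card : ℝ) := by
  classical
  obtain ⟨K, hK, hnar⟩ := Pool.Agent.Y827.RO.narR 4 1 (by norm_num) (by norm_num)
  refine ⟨K, hK, fun H hinj hpos hloc U hU => ?_⟩
  obtain ⟨C, hC⟩ := Pool.Agent.Y827.HN.forced hnar H (fun u : U => (u : ℤ × ℤ)) hinj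
    (fun u g i => (hU u u.2).2.2 g i) hpos (fun u => ⟨(hU u u.2).1, (hU u u.2).2.1⟩) hloc 1
  refine ⟨C + 1, ?_⟩
  have hlog : ∀ᶠ N : ℕ in atTop, (2 : ℝ) ^ (2 ^ (4 * K)) ≤ Real.log N :=
    (Real.tendsto_log_atTop.comp tendsto_natCast_atTop_atTop).eventually_ge_atTop _
  filter_upwards [hC, hlog, eventually_ge_atTop 3] with N hN hlogN hN3
  obtain ⟨S, σ, hS, d, hd1, hd2, hd3⟩ := hN
  by_contra hno
  push Not at hno
  have hl1 : (1 : ℝ) ≤ (2 : ℝ) ^ (2 ^ (4 * K)) := one_le_pow₀ (by norm_num)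
  have hl0 : 0 < Real.log N := lt_of_lt_of_le one_pos (hl1.trans hlogN)
  have hNpos : (0 : ℝ) < N := by exact_mod_cast (by omega : 0 < N)
  -- the set of the good n
  obtain ⟨G, hG⟩ : ∃ G : Finset ℕ, G = (Icc 2 N).filter (fun n : ℕ =>
    (∀ g ∈ S, ((H g (σ g)).1 * (n : ℤ) + (H g (σ g)).2).toNat.Prime) ∧
    ∀ u ∈ U, ¬ (u.1 * (n : ℤ) + u.2).toNat.Prime) := ⟨_, rfl⟩
  have h1 : Pool.Agent.Y827.HN.cntX (S.image (fun g => H g (σ g))) (univ.image (fun u : U => (u : ℤ × ℤ))) 1 d N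
      ≤ G.card := by
    unfold Pool.Agent.Y827.HN.cntX
    apply card_le_card
    intro n hn
    obtain ⟨hn1, hn2⟩ := mem_filter.1 hn
    obtain ⟨hn3, hn4⟩ := hn2 0 one_pos
    rw [hG]
    refine mem_filter.2 ⟨hn1, fun g hg => ?_, fun u hu => ?_⟩
    · have := hn3 (H g (σ g)) (mem_image.2 ⟨g, hg, rfl⟩)
      simpa using this
    · have := hn4 u (mem_image.2 ⟨⟨u, hu⟩, mem_univ _, rfl⟩)
      simpa using this
  have h2 : G ⊆ ((univ : Finset (Finset (Fin 4 × Fin K))).filter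
      (fun P => 2 ≤ (P.image Prod.fst).card)).biUnion (fun P => ex H U P N) := by
    intro n hn
    rw [hG] at hn
    obtain ⟨hn1, hn2, hn3⟩ := mem_filter.1 hn
    refine mem_biUnion.2 ⟨univ.filter (fun z : Fin 4 × Fin K =>
      ((H z.1 z.2).1 * (n : ℤ) + (H z.1 z.2).2).toNat.Prime), mem_filter.2 ⟨mem_univ _, ?_⟩, ?_⟩
    · refine (show 2 ≤ S.card from hS).trans (card_le_card fun g hg => ?_)
      exact mem_image.2 ⟨(g, σ g), mem_filter.2 ⟨mem_univ _, hn2 g hg⟩, rfl⟩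
    · unfold ex
      refine mem_filter.2 ⟨hn1, fun z => ?_, hn3⟩
      rw [mem_filter]
      exact ⟨fun h => ⟨mem_univ _, h⟩, fun h => h.2⟩
  have h3 : (G.card : ℝ) ≤ ∑ P ∈ (univ : Finset (Finset (Fin 4 × Fin K))).filter
      (fun P => 2 ≤ (P.image Prod.fst).card), ((ex H U P N).card : ℝ) := by
    have := (card_le_card h2).trans card_biUnion_le
    exact_mod_cast this
  have h4 : ∑ P ∈ (univ : Finset (Finset (Fin 4 × Fin K))).filter
      (fun P => 2 ≤ (P.image Prod.fst).card), ((ex H U P N).card : ℝ) ≤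
      ∑ P ∈ (univ : Finset (Finset (Fin 4 × Fin K))).filter
      (fun P => 2 ≤ (P.image Prod.fst).card), (N : ℝ) / Real.log N ^ (C + 1) := by
    apply sum_le_sum
    intro P hP
    exact (hno P (mem_filter.1 hP).2).le
  rw [sum_const, nsmul_eq_mul] at h4
  have h5 : ((((univ : Finset (Finset (Fin 4 × Fin K))).filter
      (fun P => 2 ≤ (P.image Prod.fst).card)).card : ℕ) : ℝ) < Real.log N := by
    have h6 : ((univ : Finset (Finset (Fin 4 × Fin K))).filter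
      (fun P => 2 ≤ (P.image Prod.fst).card)).card ≤ 2 ^ (4 * K) := by
      refine (card_filter_le _ _).trans ?_
      rw [card_univ, Fintype.card_finset, Fintype.card_prod, Fintype.card_fin, Fintype.card_fin]
    have h7 : 2 ^ (4 * K) < 2 ^ (2 ^ (4 * K)) := Nat.pow_lt_pow_right (by norm_num) Nat.lt_two_pow_self
    have h8 : ((2 ^ (4 * K) : ℕ) : ℝ) < (2 : ℝ) ^ (2 ^ (4 * K)) := by exact_mod_cast h7
    calc ((((univ : Finset (Finset (Fin 4 × Fin K))).filter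
      (fun P => 2 ≤ (P.image Prod.fst).card)).card : ℕ) : ℝ) ≤ ((2 ^ (4 * K) : ℕ) : ℝ) := by exact_mod_cast h6
      _ < (2 : ℝ) ^ (2 ^ (4 * K)) := h8
      _ ≤ _ := hlogN
  have h9 : (N : ℝ) / Real.log N ^ C ≤ ((((univ : Finset (Finset (Fin 4 × Fin K))).filter
      (fun P => 2 ≤ (P.image Prod.fst).card)).card : ℕ) : ℝ) * ((N : ℝ) / Real.log N ^ (C + 1)) := by
    have : (Pool.Agent.Y827.HN.cntX (S.image (fun g => H g (σ g))) (univ.image (fun u : U => (u : ℤ × ℤ))) 1 d N : ℝ)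
      ≤ G.card := by exact_mod_cast h1
    linarith
  have h10 : (N : ℝ) / Real.log N ^ C = Real.log N * ((N : ℝ) / Real.log N ^ (C + 1)) := by
    field_simp
    ring
  rw [h10] at h9
  have h11 : 0 < (N : ℝ) / Real.log N ^ (C + 1) := by positivity
  have h12 := le_of_mul_le_mul_right h9 h11
  linarith

end Pool.Agent.U974.GC
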