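import Pool.Agent.U974.GC.Eng

/-! Gaps between consecutive primes in prescribed classes modulo divisors of the gaps, from a configuration. -/

set_option autoImplicit false

namespace Pool.Agent.U974.GC

open Finset Filter Topology

/-- `p` and `p + g` are consecutive primes -/
def Consec (p g : ℕ) : Prop := p.Prime ∧ (p + g).Prime ∧ ∀ r, p < r → r < p + g → ¬ r.Prime

open Classical in
/-- the number of the primes `p ≤ x` with `p ≡ a (mod N)`, `p ≡ c (mod r)` and next prime `p + g` -/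
noncomputable def cnt (N a g r c x : ℕ) : ℕ :=
  ((range (x + 1)).filter (fun p => Consec p g ∧ p ≡ a [MOD N] ∧ p ≡ c [MOD r])).card

/-- at least `x / (log x) ^ C`, for arbitrarily large `x` -/
def Often (N a g r c : ℕ) : Prop :=
  ∃ C : ℕ, ∃ᶠ x : ℕ in atTop, (x : ℝ) / Real.log x ^ C ≤ (cnt N a g r c x : ℝ)

/-- two adjacent elements in different groups -/
theorem adj {T K : ℕ} (H : Fin T × Fin K → ℕ) (hinj : Function.Injective H)
    (P : Finset (Fin T × Fin K)) (hP : 2 ≤ (P.image Prod.fst).card) :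
    ∃ x ∈ P, ∃ y ∈ P, x.1 ≠ y.1 ∧ H x < H y ∧ ∀ z ∈ P, ¬ (H x < H z ∧ H z < H y) := by
  classical
  have hne : P.Nonempty := by
    rw [nonempty_iff_ne_empty]
    rintro rfl
    simp at hP
  obtain ⟨x₀, hx₀, hmin₀⟩ := P.exists_min_image H hne
  have hA : (P.filter (fun x => x.1 ≠ x₀.1)).Nonempty := by
    by_contra hcon
    rw [not_nonempty_iff_eq_empty, filter_eq_empty_iff] at hcon
    have h1 : P.image Prod.fst ⊆ {x₀.1} := by
      intro s hs
      rw [mem_image] at hs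
      obtain ⟨x, hx, rfl⟩ := hs
      rw [mem_singleton]
      by_contra h
      exact hcon hx h
    have h2 := card_le_card h1
    rw [card_singleton] at h2
    omega
  obtain ⟨y, hy, hminy⟩ := (P.filter (fun x => x.1 ≠ x₀.1)).exists_min_image H hA
  rw [mem_filter] at hy
  have hB : (P.filter (fun x => H x < H y)).Nonempty := by
    refine ⟨x₀, mem_filter.2 ⟨hx₀, ?_⟩⟩
    have h1 := hmin₀ y hy.1
    rcases h1.lt_or_eq with h2 | h2
    · exact h2
    · exact absurd (congrArg Prod.fst (hinj h2.symm)) hy.2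
  obtain ⟨x, hx, hmaxx⟩ := (P.filter (fun x => H x < H y)).exists_max_image H hB
  rw [mem_filter] at hx
  refine ⟨x, hx.1, y, hy.1, ?_, hx.2, ?_⟩
  · intro hxy
    have h1 : x.1 ≠ x₀.1 := by rw [hxy]; exact hy.2
    have h2 := hminy x (mem_filter.2 ⟨hx.1, h1⟩)
    have := hx.2
    omega
  · rintro z hz ⟨h1, h2⟩
    have h3 : H z ≤ H x := hmaxx z (mem_filter.2 ⟨hz, h2⟩)
    omega

/-- The residue classes of the base point. -/
theorem base {K : ℕ} (b N a : ℕ) (hb : 0 < b) (hN : N ∣ b) (ha : a.Coprime N)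
    (r c : ℕ → ℕ) (x : Fin 4 × Fin K → ℕ)
    (hcross : ∀ w w' : Fin 4 × Fin K, w.1 < w'.1 → x w < x w')
    (hr1 : ∀ w w' : Fin 4 × Fin K, w.1 < w'.1 → r (x w' - x w) ∣ x w' - x w)
    (hr2 : ∀ w w' : Fin 4 × Fin K, w.1 < w'.1 → (r (x w' - x w)).Coprime N)
    (hc : ∀ w w' : Fin 4 × Fin K, w.1 < w'.1 → (c (x w' - x w)).Coprime (r (x w' - x w)))
    (hpr : ∀ w w' : Fin 4 × Fin K, w.1 < w'.1 → ∀ q : ℕ, q.Prime → q ∣ r (x w' - x w) →
      (∀ u, u ≠ w → u ≠ w' → ¬ (q : ℤ) ∣ (x u : ℤ) - x w ∧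
        ¬ (q : ℤ) ∣ (c (x w' - x w) : ℤ) + b * ((x u : ℤ) - x w)) ∧
      ∀ u v, u ≠ w → u ≠ w' → v ≠ w → v ≠ w' → u ≠ v → ¬ (q : ℤ) ∣ (x u : ℤ) - x v) :
    ∃ Pm n₀ : ℕ, 0 < Pm ∧ N ∣ Pm ∧ n₀ ≡ a [MOD N] ∧ (∀ w, Nat.Coprime Pm (n₀ + b * x w)) ∧
      ∀ w w' : Fin 4 × Fin K, w.1 < w'.1 → r (x w' - x w) ∣ Pm ∧
        n₀ + b * x w ≡ c (x w' - x w) [MOD r (x w' - x w)] := by
  classical
  obtain ⟨I, hI⟩ : ∃ I : Finset ((Fin 4 × Fin K) × (Fin 4 × Fin K)),
      I = univ.filter (fun y => y.1.1 < y.2.1) := ⟨_, rfl⟩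
  have hImem : ∀ y, y ∈ I ↔ y.1.1 < y.2.1 := by
    intro y
    rw [hI, mem_filter]
    exact ⟨fun h => h.2, fun h => ⟨mem_univ _, h⟩⟩
  obtain ⟨ρ, hρ⟩ : ∃ ρ : (Fin 4 × Fin K) × (Fin 4 × Fin K) → ℕ, ρ = fun y => r (x y.2 - x y.1) := ⟨_, rfl⟩
  have hd0 : ∀ y ∈ I, 0 < x y.2 - x y.1 := fun y hy => by
    have := hcross y.1 y.2 ((hImem y).1 hy)
    omega
  have hρ0 : ∀ y ∈ I, 0 < ρ y := fun y hy => by
    rw [hρ]
    exact Nat.pos_of_dvd_of_pos (hr1 y.1 y.2 ((hImem y).1 hy)) (hd0 y hy)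
  have hdint : ∀ y ∈ I, ∀ q : ℕ, q ∣ ρ y → (q : ℤ) ∣ (x y.2 : ℤ) - x y.1 := fun y hy q hq => by
    rw [hρ] at hq
    have h1 := hq.trans (hr1 y.1 y.2 ((hImem y).1 hy))
    have h2 : ((x y.2 - x y.1 : ℕ) : ℤ) = (x y.2 : ℤ) - x y.1 := by
      have := hcross y.1 y.2 ((hImem y).1 hy)
      omega
    rw [← h2]
    exact_mod_cast h1
  have hpair : Set.Pairwise (I : Set ((Fin 4 × Fin K) × (Fin 4 × Fin K))) (Function.onFun Nat.Coprime ρ) := by
    rintro ⟨w, w'⟩ hy ⟨u, u'⟩ hy' hne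
    have hy := mem_coe.1 hy
    have hy' := mem_coe.1 hy'
    refine Nat.coprime_of_dvd fun q hq h1 h2 => ?_
    have e1 := hdint _ hy q h1
    have e2 := hdint _ hy' q h2
    have hlt : w.1 < w'.1 := (hImem _).1 hy
    have hlt' : u.1 < u'.1 := (hImem _).1 hy'
    have hpr1 := hpr w w' hlt q hq (by rw [hρ] at h1; exact h1)
    simp only at e1 e2
    by_cases a1 : u = w
    · subst a1
      have a2 : u' ≠ w' := fun h => hne (by rw [h])
      have a3 : u' ≠ u := fun h => by rw [h] at hlt'; exact lt_irrefl _ hlt'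
      exact (hpr1.1 u' a3 a2).1 e2
    · by_cases a2 : u = w'
      · subst a2
        have a3 : u' ≠ u := fun h => by rw [h] at hlt'; exact lt_irrefl _ hlt'
        have a4 : u' ≠ w := fun h => by
          rw [h] at hlt'
          exact lt_asymm hlt hlt'
        refine (hpr1.1 u' a4 a3).1 ?_
        have e3 := dvd_add e2 e1
        have e : (x u' : ℤ) - x u + (x u - x w) = x u' - x w := by ring
        rwa [e] at e3
      · by_cases a3 : u' = w
        · subst a3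
          refine (hpr1.1 u a1 a2).1 ?_
          have e3 : (x u : ℤ) - x u' = -((x u' : ℤ) - x u) := by ring
          rw [e3]
          exact (dvd_neg).2 e2
        · by_cases a4 : u' = w'
          · subst a4
            refine (hpr1.1 u a1 a2).1 ?_
            have e3 := dvd_sub e1 e2
            have e : (x u' : ℤ) - x w - (x u' - x u) = x u - x w := by ring
            rwa [e] at e3
          · refine hpr1.2 u' u a3 a4 a1 a2 (fun h => ?_) e2
            rw [h] at hlt'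
            exact lt_irrefl _ hlt'
  obtain ⟨e, he⟩ : ∃ e : (Fin 4 × Fin K) × (Fin 4 × Fin K) → ℕ,
      e = fun y => (((c (x y.2 - x y.1) : ℤ) - b * x y.1) % (ρ y : ℤ)).toNat := ⟨_, rfl⟩
  obtain ⟨n₁, hn₁⟩ := Nat.chineseRemainderOfFinset e ρ I (fun y hy => (hρ0 y hy).ne') hpair
  obtain ⟨R, hR⟩ : ∃ R, R = ∏ y ∈ I, ρ y := ⟨_, rfl⟩
  have hR0 : 0 < R := by rw [hR]; exact prod_pos hρ0
  have hρR : ∀ y ∈ I, ρ y ∣ R := fun y hy => by rw [hR]; exact dvd_prod_of_mem ρ hy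
  have hRN : Nat.Coprime N R := by
    rw [hR]
    refine Nat.Coprime.prod_right fun y hy => ?_
    rw [hρ]
    exact (hr2 y.1 y.2 ((hImem y).1 hy)).symm
  have hNpos : 0 < N := Nat.pos_of_dvd_of_pos hN hb
  obtain ⟨n₀, hn₀1, hn₀2⟩ := Nat.chineseRemainder hRN a n₁
  -- the residues
  have hres : ∀ y ∈ I, (ρ y : ℤ) ∣ ((n₀ + b * x y.1 : ℕ) : ℤ) - c (x y.2 - x y.1) := by
    intro y hy
    have h1 : n₀ ≡ e y [MOD ρ y] := (hn₀2.of_dvd (hρR y hy)).trans (hn₁ y hy)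
    have h2 := (Nat.modEq_iff_dvd.1 h1)
    have hρz : (ρ y : ℤ) ≠ 0 := by exact_mod_cast (hρ0 y hy).ne'
    have h3 : (e y : ℤ) = ((c (x y.2 - x y.1) : ℤ) - b * x y.1) % (ρ y : ℤ) := by
      rw [he]
      exact Int.toNat_of_nonneg (Int.emod_nonneg _ hρz)
    have h4 := Int.emod_add_mul_ediv ((c (x y.2 - x y.1) : ℤ) - b * x y.1) (ρ y : ℤ)
    rw [← h3] at h4
    have h5 : ((n₀ + b * x y.1 : ℕ) : ℤ) - c (x y.2 - x y.1) = -((e y : ℤ) - n₀) -
        (ρ y : ℤ) * (((c (x y.2 - x y.1) : ℤ) - b * x y.1) / (ρ y : ℤ)) := by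
      push_cast
      linarith
    rw [h5]
    exact dvd_sub ((dvd_neg).2 h2) (dvd_mul_right _ _)
  refine ⟨N * R, n₀, Nat.mul_pos hNpos hR0, dvd_mul_right _ _, hn₀1, fun w => ?_, fun w w' hlt => ?_⟩
  · refine Nat.Coprime.mul_left ?_ ?_
    · have h1 : n₀ + b * x w ≡ a [MOD N] := by
        have h2 : b * x w ≡ 0 [MOD N] := (Nat.modEq_zero_iff_dvd).2 (hN.mul_right _)
        have h3 := hn₀1.add h2
        rwa [add_zero] at h3
      have h2 := h1.gcd_eq
      rw [Nat.coprime_comm, Nat.Coprime, h2]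
      exact ha
    · rw [hR]
      refine Nat.Coprime.prod_left fun y hy => ?_
      refine Nat.coprime_of_dvd fun q hq h1 h2 => ?_
      have hlt := (hImem y).1 hy
      have hpr1 := hpr y.1 y.2 hlt q hq (by rw [hρ] at h1; exact h1)
      have h3 : (q : ℤ) ∣ ((n₀ + b * x y.1 : ℕ) : ℤ) - c (x y.2 - x y.1) :=
        (Int.natCast_dvd_natCast.2 h1).trans (hres y hy)
      have h4 : (q : ℤ) ∣ ((n₀ + b * x w : ℕ) : ℤ) := by exact_mod_cast h2
      have h5 : (q : ℤ) ∣ (c (x y.2 - x y.1) : ℤ) + b * ((x w : ℤ) - x y.1) := by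
        have h6 := dvd_sub h4 h3
        have e6 : ((n₀ + b * x w : ℕ) : ℤ) - (((n₀ + b * x y.1 : ℕ) : ℤ) - c (x y.2 - x y.1)) =
            (c (x y.2 - x y.1) : ℤ) + b * ((x w : ℤ) - x y.1) := by
          push_cast
          ring
        rwa [e6] at h6
      have hcq : ¬ (q : ℤ) ∣ (c (x y.2 - x y.1) : ℤ) := fun h => by
        have h6 : q ∣ c (x y.2 - x y.1) := by exact_mod_cast h
        have h7 : q ∣ Nat.gcd (c (x y.2 - x y.1)) (r (x y.2 - x y.1)) :=
          Nat.dvd_gcd h6 (by rw [hρ] at h1; exact h1)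
        rw [hc y.1 y.2 hlt] at h7
        exact hq.one_lt.ne' (Nat.dvd_one.1 h7)
      by_cases a1 : w = y.1
      · rw [a1, sub_self, mul_zero, add_zero] at h5
        exact hcq h5
      · by_cases a2 : w = y.2
        · rw [a2] at h5
          have h6 := dvd_sub h5 ((hdint y hy q h1).mul_left (b : ℤ))
          rw [add_sub_cancel_right] at h6
          exact hcq h6
        · exact (hpr1.1 w a1 a2).2 h5
  · have hy : (w, w') ∈ I := (hImem _).2 hlt
    have h1 := hρR _ hy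
    have h2 := hres _ hy
    rw [hρ] at h1 h2
    refine ⟨h1.trans (dvd_mul_left _ _), ?_⟩
    exact (Nat.modEq_iff_dvd.2 (by simpa using h2)).symm

/-- The statement of the engine. -/
def Engine (K : ℕ) : Prop :=
    ∀ H : Fin 4 → Fin K → ℤ × ℤ, Function.Injective (fun x : Fin 4 × Fin K => H x.1 x.2) →
    (∀ g i, 0 < (H g i).1 ∧ IsCoprime (H g i).1 (H g i).2) →
    (∀ p : ℕ, p.Prime → p ≤ 4 * K → ∃ r : ℤ, ∀ g i, ¬ (p : ℤ) ∣ (H g i).1 * r + (H g i).2) →
    ∀ U : Finset (ℤ × ℤ), (∀ u ∈ U, 0 < u.1 ∧ IsCoprime u.1 u.2 ∧ ∀ g i, u ≠ H g i) →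
    ∃ C : ℕ, ∀ᶠ N : ℕ in atTop, ∃ P : Finset (Fin 4 × Fin K), 2 ≤ (P.image Prod.fst).card ∧
      (N : ℝ) / (Real.log N) ^ C ≤ ((ex H U P N).card : ℝ)

theorem keyE {K : ℕ} (hE : Engine K) (b N a : ℕ) (hb : 0 < b) (hN : N ∣ b) (ha : a.Coprime N)
    (r c : ℕ → ℕ) (x : Fin 4 × Fin K → ℕ) (hinj : Function.Injective x)
    (hcross : ∀ w w' : Fin 4 × Fin K, w.1 < w'.1 → x w < x w')
    (hr1 : ∀ w w' : Fin 4 × Fin K, w.1 < w'.1 → r (x w' - x w) ∣ x w' - x w)
    (hr2 : ∀ w w' : Fin 4 × Fin K, w.1 < w'.1 → (r (x w' - x w)).Coprime N)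
    (hc : ∀ w w' : Fin 4 × Fin K, w.1 < w'.1 → (c (x w' - x w)).Coprime (r (x w' - x w)))
    (hpr : ∀ w w' : Fin 4 × Fin K, w.1 < w'.1 → ∀ q : ℕ, q.Prime → q ∣ r (x w' - x w) →
      (∀ u, u ≠ w → u ≠ w' → ¬ (q : ℤ) ∣ (x u : ℤ) - x w ∧
        ¬ (q : ℤ) ∣ (c (x w' - x w) : ℤ) + b * ((x u : ℤ) - x w)) ∧
      ∀ u v, u ≠ w → u ≠ w' → v ≠ w → v ≠ w' → u ≠ v → ¬ (q : ℤ) ∣ (x u : ℤ) - x v)
    (hloc : ∀ p : ℕ, p.Prime → p ≤ 4 * K → ∃ n : ℤ, ∀ w, ¬ (p : ℤ) ∣ n + b * x w) :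
    ∃ w w' : Fin 4 × Fin K, w.1 < w'.1 ∧
      Often N a (b * (x w' - x w)) (r (x w' - x w)) (c (x w' - x w)) := by
  classical
  obtain ⟨Pm, n₀, hPm, hNPm, hn₀, hcop, hcls⟩ := base b N a hb hN ha r c x hcross hr1 hr2 hc hpr
  by_contra hno
  push Not at hno
  obtain ⟨s, hs⟩ : ∃ s, s = ∑ w, b * x w := ⟨_, rfl⟩
  have hsw : ∀ w, b * x w ≤ s := fun w => by
    rw [hs]
    exact single_le_sum (f := fun w => b * x w) (fun _ _ => Nat.zero_le _) (mem_univ w)
  obtain ⟨Hf, hHf⟩ : ∃ Hf : Fin 4 → Fin K → ℤ × ℤ,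
      Hf = fun g i => ((Pm : ℤ), ((n₀ + b * x (g, i) : ℕ) : ℤ)) := ⟨_, rfl⟩
  obtain ⟨U, hU⟩ : ∃ U : Finset (ℤ × ℤ), U = ((range (s + 1)).filter
      (fun t => Nat.Coprime Pm (n₀ + t) ∧ ∀ w, t ≠ b * x w)).image
        (fun t : ℕ => ((Pm : ℤ), ((n₀ + t : ℕ) : ℤ))) := ⟨_, rfl⟩
  have hPz : (0 : ℤ) < Pm := by exact_mod_cast hPm
  obtain ⟨C, hC⟩ := hE Hf (by
    rintro ⟨g, i⟩ ⟨g', i'⟩ h
    have h1 : Hf g i = Hf g' i' := h
    rw [hHf] at h1
    have h2 : ((n₀ + b * x (g, i) : ℕ) : ℤ) = ((n₀ + b * x (g', i') : ℕ) : ℤ) := (Prod.mk.inj h1).2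
    have h3 : n₀ + b * x (g, i) = n₀ + b * x (g', i') := by exact_mod_cast h2
    exact hinj (Nat.eq_of_mul_eq_mul_left hb (Nat.add_left_cancel h3))) (fun g i => by
    rw [hHf]
    exact ⟨hPz, Nat.isCoprime_iff_coprime.2 (hcop (g, i))⟩) (fun p hp hpK => by
    by_cases hpP : p ∣ Pm
    · refine ⟨0, fun g i hd => ?_⟩
      rw [hHf] at hd
      simp only [mul_zero, zero_add] at hd
      have h1 : p ∣ n₀ + b * x (g, i) := by exact_mod_cast hd
      have h2 := Nat.dvd_gcd hpP h1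
      rw [hcop (g, i)] at h2
      exact hp.one_lt.ne' (Nat.dvd_one.1 h2)
    · obtain ⟨n, hn⟩ := hloc p hp hpK
      have hcp : IsCoprime (Pm : ℤ) (p : ℤ) :=
        Nat.isCoprime_iff_coprime.2 ((hp.coprime_iff_not_dvd.2 hpP).symm)
      obtain ⟨u, v, huv⟩ := hcp
      refine ⟨(n - n₀) * u, fun g i hd => hn (g, i) ?_⟩
      rw [hHf] at hd
      have h1 : n + (b : ℤ) * x (g, i) = ((Pm : ℤ) * ((n - n₀) * u) + ((n₀ + b * x (g, i) : ℕ) : ℤ)) +
          (n - n₀) * v * p := by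
        push_cast
        linear_combination (n - n₀) * (-huv)
      rw [h1]
      exact dvd_add hd (dvd_mul_left _ _)) U (fun u hu => by
    rw [hU] at hu
    obtain ⟨t, ht, rfl⟩ := mem_image.1 hu
    obtain ⟨-, ht2, ht3⟩ := mem_filter.1 ht
    refine ⟨hPz, Nat.isCoprime_iff_coprime.2 ht2, fun g i h => ?_⟩
    rw [hHf] at h
    have h2 : ((n₀ + t : ℕ) : ℤ) = ((n₀ + b * x (g, i) : ℕ) : ℤ) := (Prod.mk.inj h).2
    have h3 : n₀ + t = n₀ + b * x (g, i) := by exact_mod_cast h2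
    exact ht3 (g, i) (by omega))
  -- the failing inequalities
  have hfail : ∀ᶠ y : ℕ in atTop, ∀ z : (Fin 4 × Fin K) × (Fin 4 × Fin K), z.1.1 < z.2.1 →
      (cnt N a (b * (x z.2 - x z.1)) (r (x z.2 - x z.1)) (c (x z.2 - x z.1)) y : ℝ) <
        (y : ℝ) / Real.log y ^ (C + 1) := by
    rw [eventually_all]
    intro z
    by_cases hz : z.1.1 < z.2.1
    · have h1 := hno z.1 z.2 hz
      unfold Often at h1
      push Not at h1
      filter_upwards [h1 (C + 1)] with y hy _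
      exact hy
    · exact Eventually.of_forall fun y h => absurd h hz
  obtain ⟨D, hD⟩ : ∃ D, D = Pm + n₀ + s := ⟨_, rfl⟩
  have htend : Tendsto (fun X : ℕ => Pm * X + n₀ + s) atTop atTop := by
    apply tendsto_atTop_mono (f := fun X : ℕ => X) _ tendsto_id
    intro X
    have : X ≤ Pm * X := Nat.le_mul_of_pos_left X hPm
    omega
  have hlog : ∀ᶠ X : ℕ in atTop, (D : ℝ) + 1 ≤ Real.log X :=
    (Real.tendsto_log_atTop.comp tendsto_natCast_atTop_atTop).eventually_ge_atTop _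
  obtain ⟨X, hX1, hX2, hX3, hX4⟩ := (hC.and ((htend.eventually hfail).and
    (hlog.and (eventually_ge_atTop 3)))).exists
  obtain ⟨P, hP1, hP2⟩ := hX1
  obtain ⟨w, hw, w', hw', hne, hlt, hadj⟩ := adj x hinj P hP1
  have hww : w.1 < w'.1 := by
    rcases lt_trichotomy w.1 w'.1 with h | h | h
    · exact h
    · exact absurd h hne
    · have := hcross w' w h
      omega
  obtain ⟨hcl1, hcl2⟩ := hcls w w' hww
  have hcount : (ex Hf U P X).card ≤
      cnt N a (b * (x w' - x w)) (r (x w' - x w)) (c (x w' - x w)) (Pm * X + n₀ + s) := by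
    unfold cnt
    apply card_le_card_of_injOn (fun n : ℕ => Pm * n + (n₀ + b * x w))
    · intro n hn
      obtain ⟨hn1, hn2, hn3⟩ := mem_filter.1 (mem_coe.1 hn)
      rw [mem_Icc] at hn1
      have hval : ∀ z : Fin 4 × Fin K, (((Hf z.1 z.2).1 * (n : ℤ) + (Hf z.1 z.2).2).toNat) =
          Pm * n + (n₀ + b * x z) := by
        intro z
        rw [hHf]
        have e : (Pm : ℤ) * (n : ℤ) + ((n₀ + b * x (z.1, z.2) : ℕ) : ℤ) =
            ((Pm * n + (n₀ + b * x z) : ℕ) : ℤ) := by push_cast; rfl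
        show ((Pm : ℤ) * (n : ℤ) + ((n₀ + b * x (z.1, z.2) : ℕ) : ℤ)).toNat = _
        rw [e, Int.toNat_natCast]
      have hgap : Pm * n + (n₀ + b * x w) + b * (x w' - x w) = Pm * n + (n₀ + b * x w') := by
        have h1 : b * x w' = b * x w + b * (x w' - x w) := by
          rw [← Nat.mul_add, Nat.add_sub_cancel' hlt.le]
        omega
      refine mem_coe.2 (mem_filter.2 ⟨mem_range.2 ?_, ⟨?_, ?_, fun ρ h1 h2 hρp => ?_⟩, ?_, ?_⟩)
      · have h1 : Pm * n ≤ Pm * X := Nat.mul_le_mul_left _ hn1.2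
        have h2 := hsw w
        show Pm * n + (n₀ + b * x w) < Pm * X + n₀ + s + 1
        omega
      · have h1 := (hn2 w).2 hw
        rwa [hval w] at h1
      · show (Pm * n + (n₀ + b * x w) + b * (x w' - x w)).Prime
        rw [hgap]
        have h1 := (hn2 w').2 hw'
        rwa [hval w'] at h1
      · have h1' : Pm * n + (n₀ + b * x w) < ρ := h1
        have h2' : ρ < Pm * n + (n₀ + b * x w) + b * (x w' - x w) := h2
        rw [hgap] at h2'
        obtain ⟨t, rfl⟩ : ∃ t, ρ = Pm * n + (n₀ + t) := ⟨ρ - Pm * n - n₀, by omega⟩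
        have ht1 : b * x w < t := by omega
        have ht2 : t < b * x w' := by omega
        by_cases hcp : Nat.Coprime Pm (n₀ + t)
        · by_cases hz : ∃ z, t = b * x z
          · obtain ⟨z, rfl⟩ := hz
            have h3 : (((Hf z.1 z.2).1 * (n : ℤ) + (Hf z.1 z.2).2).toNat).Prime := by
              rw [hval z]
              exact hρp
            have h4 := (hn2 z).1 h3
            exact hadj z h4 ⟨Nat.lt_of_mul_lt_mul_left ht1, Nat.lt_of_mul_lt_mul_left ht2⟩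
          · push Not at hz
            have h3 : ((Pm : ℤ), ((n₀ + t : ℕ) : ℤ)) ∈ U := by
              rw [hU]
              refine mem_image.2 ⟨t, mem_filter.2 ⟨mem_range.2 ?_, hcp, hz⟩, rfl⟩
              have := hsw w'
              omega
            apply hn3 _ h3
            have e : (Pm : ℤ) * (n : ℤ) + ((n₀ + t : ℕ) : ℤ) = ((Pm * n + (n₀ + t) : ℕ) : ℤ) := by
              push_cast; rfl
            show ((Pm : ℤ) * (n : ℤ) + ((n₀ + t : ℕ) : ℤ)).toNat.Prime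
            rw [e, Int.toNat_natCast]
            exact hρp
        · obtain ⟨q, hq, hq1, hq2⟩ := Nat.Prime.not_coprime_iff_dvd.1 hcp
          have h3 : q ∣ Pm * n + (n₀ + t) := dvd_add (hq1.mul_right _) hq2
          have h4 := (Nat.prime_dvd_prime_iff_eq hq hρp).1 h3
          have h5 : q ≤ Pm := Nat.le_of_dvd hPm hq1
          have h6 : Pm * 2 ≤ Pm * n := Nat.mul_le_mul_left _ hn1.1
          omega
      · show Pm * n + (n₀ + b * x w) ≡ a [MOD N]
        have h1 : Pm * n ≡ 0 [MOD N] := Nat.modEq_zero_iff_dvd.2 (hNPm.mul_right _)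
        have h2 : b * x w ≡ 0 [MOD N] := Nat.modEq_zero_iff_dvd.2 (hN.mul_right _)
        have h3 := h1.add (hn₀.add h2)
        rwa [zero_add, add_zero] at h3
      · show Pm * n + (n₀ + b * x w) ≡ c (x w' - x w) [MOD r (x w' - x w)]
        have h1 : Pm * n ≡ 0 [MOD r (x w' - x w)] := Nat.modEq_zero_iff_dvd.2 (hcl1.mul_right _)
        have h3 := h1.add hcl2
        rwa [zero_add] at h3
    · intro n _ n' _ h
      have h1 : Pm * n + (n₀ + b * x w) = Pm * n' + (n₀ + b * x w) := h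
      exact Nat.eq_of_mul_eq_mul_left hPm (Nat.add_right_cancel h1)
  -- the contradiction
  have hf := hX2 (w, w') hww
  obtain ⟨Y, hY⟩ : ∃ Y, Y = Pm * X + n₀ + s := ⟨_, rfl⟩
  simp only at hf
  rw [← hY] at hf hcount
  have hXY : X ≤ Y := by
    have : X ≤ Pm * X := Nat.le_mul_of_pos_left X hPm
    omega
  have hYD : Y ≤ D * X := by
    rw [hY, hD]
    have h1 : n₀ ≤ n₀ * X := Nat.le_mul_of_pos_right n₀ (by omega)
    have h2 : s ≤ s * X := Nat.le_mul_of_pos_right s (by omega)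
    calc Pm * X + n₀ + s ≤ Pm * X + n₀ * X + s * X := by omega
      _ = _ := by ring
  have hXR : (3 : ℝ) ≤ X := by exact_mod_cast hX4
  have hX0 : (0 : ℝ) < X := by linarith
  have hXYR : (X : ℝ) ≤ Y := by exact_mod_cast hXY
  have hlX : 0 < Real.log X := Real.log_pos (by linarith)
  have hlXY : Real.log X ≤ Real.log Y := Real.log_le_log hX0 hXYR
  have h1 : (Y : ℝ) / Real.log Y ^ (C + 1) ≤ (D * X : ℝ) / Real.log X ^ (C + 1) := by
    apply div_le_div₀ (by positivity) (by exact_mod_cast hYD) (by positivity)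
    exact pow_le_pow_left₀ hlX.le hlXY _
  have h2 : (D * X : ℝ) / Real.log X ^ (C + 1) ≤ (X : ℝ) / Real.log X ^ C := by
    rw [div_le_div_iff₀ (by positivity) (by positivity), pow_succ]
    have h3 : (D : ℝ) ≤ Real.log X := by linarith
    have h4 : (0 : ℝ) ≤ X * Real.log X ^ C := by positivity
    nlinarith
  have h3 : ((ex Hf U P X).card : ℝ) ≤
      (cnt N a (b * (x w' - x w)) (r (x w' - x w)) (c (x w' - x w)) Y : ℝ) := by exact_mod_cast hcount
  linarith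

end Pool.Agent.U974.GC
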