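import Pool.Agent.U974.GC.Key
import Pool.Agent.U974.GC.CfgThree
import Pool.Agent.U974.GC.Cnt

/-! One third of all even numbers are gaps between consecutive primes in every residue class modulo every divisor
of the gap without small prime factors. -/

set_option autoImplicit false

namespace Pool.Agent.U974.GC

open Finset Filter Topology
open Pool.Agent.N646.TT (PP emb loc4)

/-- for every divisor `r` of `k` prime to `N` all of whose prime factors exceed `z` and every `c` prime to `r`,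
`b k` is often a gap after a prime `≡ a (mod N)`, `≡ c (mod r)` -/
def EveryClass (z N a b k : ℕ) : Prop := ∀ r : ℕ, r ∣ k → r.Coprime N →
  (∀ q : ℕ, q.Prime → q ∣ r → z < q) → ∀ c : ℕ, c.Coprime r → Often N a (b * k) r c

theorem inj4 {α : Type} (w w' u v : α) (h1 : w ≠ w') (h2 : u ≠ w) (h3 : u ≠ w') (h4 : v ≠ w) (h5 : v ≠ w')
    (h6 : u ≠ v) : Function.Injective (![w, w', u, v] : Fin 4 → α) := by
  have e0 : (![w, w', u, v] : Fin 4 → α) 0 = w := rfl
  have e1 : (![w, w', u, v] : Fin 4 → α) 1 = w' := rfl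
  have e2 : (![w, w', u, v] : Fin 4 → α) 2 = u := rfl
  have e3 : (![w, w', u, v] : Fin 4 → α) 3 = v := rfl
  have h : ∀ g : Fin 4, g = 0 ∨ g = 1 ∨ g = 2 ∨ g = 3 := by decide
  intro i j hij
  rcases h i with rfl | rfl | rfl | rfl <;> rcases h j with rfl | rfl | rfl | rfl <;>
    simp only [e0, e1, e2, e3] at hij <;>
    first
    | rfl
    | exact absurd hij h1
    | exact absurd hij.symm h1
    | exact absurd hij h2
    | exact absurd hij.symm h2
    | exact absurd hij h3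
    | exact absurd hij.symm h3
    | exact absurd hij h4
    | exact absurd hij.symm h4
    | exact absurd hij h5
    | exact absurd hij.symm h5
    | exact absurd hij h6
    | exact absurd hij.symm h6

open Classical in
theorem main (ε : ℝ) (hε : 0 < ε) : ∃ z L : ℕ, ∀ b N a : ℕ, 0 < b → 2 ∣ b → N ∣ b → a.Coprime N →
    ∀ H : ℕ, L ≤ H → (1 / 3 - ε) * (H : ℝ) ≤
      (((Icc 1 H).filter (fun k => EveryClass z N a b k)).card : ℝ) := by
  obtain ⟨K, hK, hE⟩ := exact2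
  obtain ⟨e, he⟩ : ∃ e : ℝ, e = min ε 1 / 2 := ⟨_, rfl⟩
  have hmin : 0 < min ε 1 := lt_min hε one_pos
  have he0 : 0 < e := by rw [he]; positivity
  have he1 : e ≤ 1 := by
    have := min_le_right ε 1
    rw [he]; linarith
  have heε : 2 * e ≤ ε := by
    have := min_le_left ε 1
    rw [he]; linarith
  obtain ⟨η, hη, L, hL⟩ := config3 K hK e he0 he1
  obtain ⟨z₀, hz₀⟩ := exists_nat_ge (27 / (e * η))
  obtain ⟨z, hz⟩ : ∃ z, z = z₀ + 1 := ⟨_, rfl⟩
  have hz1 : 1 ≤ z := by omega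
  have hzR : 27 / (e * η) ≤ (z : ℝ) := by
    rw [hz]
    push_cast
    linarith
  have hz0R : (0 : ℝ) < z := by exact_mod_cast hz1
  refine ⟨z, L, fun b N a hb h2 hN ha H hH => ?_⟩
  by_contra hcon
  push Not at hcon
  -- the choice of the classes
  have hch : ∀ d : ℕ, ∃ rc : ℕ × ℕ, ¬ EveryClass z N a b d → (rc.1 ∣ d ∧ rc.1.Coprime N ∧
      (∀ q : ℕ, q.Prime → q ∣ rc.1 → z < q) ∧ rc.2.Coprime rc.1 ∧ ¬ Often N a (b * d) rc.1 rc.2) := by
    intro d
    by_cases h : EveryClass z N a b d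
    · exact ⟨(0, 0), fun h' => absurd h h'⟩
    · have h' := h
      unfold EveryClass at h'
      push Not at h'
      obtain ⟨r, h1, h2, h3, c, h4, h5⟩ := h'
      exact ⟨(r, c), fun _ => ⟨h1, h2, h3, h4, h5⟩⟩
  choose rc hrc using hch
  obtain ⟨r, hr⟩ : ∃ r : ℕ → ℕ, r = fun d => (rc d).1 := ⟨_, rfl⟩
  obtain ⟨c, hc⟩ : ∃ c : ℕ → ℕ, c = fun d => (rc d).2 := ⟨_, rfl⟩
  have hrc' : ∀ d, ¬ EveryClass z N a b d → (r d ∣ d ∧ (r d).Coprime N ∧
      (∀ q : ℕ, q.Prime → q ∣ r d → z < q) ∧ (c d).Coprime (r d) ∧ ¬ Often N a (b * d) (r d) (c d)) := by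
    intro d hd
    rw [hr, hc]
    exact hrc d hd
  obtain ⟨B₀, hB₀⟩ : ∃ B₀, B₀ = (Icc 1 H).filter (fun k => ¬ EveryClass z N a b k) := ⟨_, rfl⟩
  obtain ⟨B, hB⟩ : ∃ B, B = B₀.filter (fun d => wt z d ≤ η) := ⟨_, rfl⟩
  have hBmem : ∀ d ∈ B, 1 ≤ d ∧ d ≤ H ∧ ¬ EveryClass z N a b d ∧ wt z d ≤ η := by
    intro d hd
    rw [hB, hB₀] at hd
    obtain ⟨h1, h2⟩ := mem_filter.1 hd
    obtain ⟨h3, h4⟩ := mem_filter.1 h1
    obtain ⟨h5, h6⟩ := mem_Icc.1 h3
    exact ⟨h5, h6, h4, h2⟩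
  have hBI : B ⊆ Icc 1 H := fun d hd => mem_Icc.2 ⟨(hBmem d hd).1, (hBmem d hd).2.1⟩
  have hsum : ((Icc 1 H).filter (fun k => EveryClass z N a b k)).card + B₀.card = H := by
    rw [hB₀, card_filter_add_card_filter_not, Nat.card_Icc, Nat.add_sub_cancel]
  have hsumR : ((((Icc 1 H).filter (fun k => EveryClass z N a b k)).card : ℕ) : ℝ) + (B₀.card : ℝ) = H := by
    exact_mod_cast hsum
  have hsplit : B₀.card ≤ B.card + ((Icc 1 H).filter (fun d => η < wt z d)).card := by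
    rw [hB, ← card_filter_add_card_filter_not (s := B₀) (fun d => wt z d ≤ η)]
    apply Nat.add_le_add_left
    apply card_le_card
    intro d hd
    obtain ⟨h1, h2⟩ := mem_filter.1 hd
    rw [hB₀] at h1
    exact mem_filter.2 ⟨(mem_filter.1 h1).1, not_le.1 h2⟩
  have hsplitR : (B₀.card : ℝ) ≤ B.card + (((Icc 1 H).filter (fun d => η < wt z d)).card : ℝ) := by
    exact_mod_cast hsplit
  have hH0 : (0 : ℝ) ≤ H := Nat.cast_nonneg _
  have hfew : (((Icc 1 H).filter (fun d => η < wt z d)).card : ℝ) ≤ e * H := by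
    refine (wt_few z H hz1 η hη).trans ?_
    rw [div_le_iff₀ (by positivity)]
    rw [div_le_iff₀ (by positivity)] at hzR
    nlinarith
  have hBcard : (2 / 3 + e) * (H : ℝ) ≤ B.card := by nlinarith
  obtain ⟨c₃, rr, F, h3, hinjp, hfam, hrel⟩ := hL H hH B hBI hBcard (Rel z b r c) (fun d hd => by
    obtain ⟨h1, h2, h3, h4⟩ := hBmem d hd
    obtain ⟨h5, -, -, h6, -⟩ := hrc' d h3
    exact (rel_card z b H d r c h1 h2 h5 h6).trans (mul_le_mul_of_nonneg_right h4 (by positivity)))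
  obtain ⟨M, hM⟩ : ∃ M, M = (4 * K).factorial := ⟨_, rfl⟩
  rw [← hM] at hinjp hfam hrel
  obtain ⟨x, hx⟩ : ∃ x : Fin 4 × Fin K → ℕ, x = fun w => pos M rr F (finProdFinEquiv w, 0) := ⟨_, rfl⟩
  have hxw : ∀ w, x w = pos M rr F (finProdFinEquiv w, 0) := fun w => by rw [hx]
  have hgrp : ∀ w : Fin 4 × Fin K, grp (finProdFinEquiv w) = w.1 := fun w => by
    unfold grp
    rw [Equiv.symm_apply_apply]
  have hinj : Function.Injective x := by
    intro w w' h
    rw [hxw, hxw] at h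
    have h1 := hinjp h
    exact finProdFinEquiv.injective (congrArg Prod.fst h1)
  have hf : ∀ w w' : Fin 4 × Fin K, w.1 < w'.1 → x w < x w' ∧ x w' - x w ∈ B := by
    intro w w' h
    rw [hxw, hxw]
    exact hfam _ _ (by show grp (finProdFinEquiv w) < grp (finProdFinEquiv w'); rw [hgrp, hgrp]; exact h)
  have hbadd : ∀ w w' : Fin 4 × Fin K, w.1 < w'.1 → ¬ EveryClass z N a b (x w' - x w) :=
    fun w w' h => (hBmem _ (hf w w' h).2).2.2.1
  have hR : ∀ w w' : Fin 4 × Fin K, w.1 < w'.1 → ∀ u v, u ≠ w → u ≠ w' → v ≠ w → v ≠ w' → u ≠ v →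
      ¬ Rel z b r c (x w' - x w) ![(x u : ℤ) - x w, (x v : ℤ) - x w] := by
    intro w w' hlt u v a1 a2 a3 a4 a5 hRel
    have hne : w ≠ w' := fun h => by rw [h] at hlt; exact lt_irrefl _ hlt
    obtain ⟨g, hg⟩ : ∃ g : Fin 4 → Fin (4 * K), g = fun i => finProdFinEquiv ((![w, w', u, v] : Fin 4 →
      Fin 4 × Fin K) i) := ⟨_, rfl⟩
    have hg0 : g 0 = finProdFinEquiv w := by rw [hg]; rfl
    have hg1 : g 1 = finProdFinEquiv w' := by rw [hg]; rfl
    have hg2 : g 2 = finProdFinEquiv u := by rw [hg]; rfl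
    have hg3 : g 3 = finProdFinEquiv v := by rw [hg]; rfl
    have hginj : Function.Injective g := by
      rw [hg]
      exact finProdFinEquiv.injective.comp (inj4 w w' u v hne a1 a2 a3 a4 a5)
    apply hrel g hginj (by rw [hg0, hg1, hgrp, hgrp]; exact hlt)
    unfold QP
    have e1 : (fun i : Fin 2 => ((pos M rr F (g i.succ.succ, (fun _ => 0 : Fin (4 * K) → Fin 1) (g i.succ.succ)) : ℕ) : ℤ) -
        (pos M rr F (g 0, (fun _ => 0 : Fin (4 * K) → Fin 1) (g 0)) : ℕ)) = ![(x u : ℤ) - x w, (x v : ℤ) - x w] := by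
      funext i
      fin_cases i
      · show ((pos M rr F (g 2, 0) : ℕ) : ℤ) - (pos M rr F (g 0, 0) : ℕ) = (x u : ℤ) - x w
        rw [hg2, hg0, ← hxw, ← hxw]
      · show ((pos M rr F (g 3, 0) : ℕ) : ℤ) - (pos M rr F (g 0, 0) : ℕ) = (x v : ℤ) - x w
        rw [hg3, hg0, ← hxw, ← hxw]
    rw [e1]
    show Rel z b r c (pos M rr F (g 1, 0) - pos M rr F (g 0, 0)) _
    rw [hg1, hg0, ← hxw, ← hxw]
    exact hRel
  have hfour : ∀ w w' u : Fin 4 × Fin K, ∃ v, v ≠ w ∧ v ≠ w' ∧ u ≠ v := by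
    intro w w' u
    by_contra hno
    push Not at hno
    have h1 : (univ : Finset (Fin 4 × Fin K)) ⊆ {w, w', u} := by
      intro v _
      rw [mem_insert, mem_insert, mem_singleton]
      by_cases b1 : v = w
      · exact Or.inl b1
      · by_cases b2 : v = w'
        · exact Or.inr (Or.inl b2)
        · exact Or.inr (Or.inr (hno v b1 b2).symm)
    have h2 := card_le_card h1
    have h3 : ({w, w', u} : Finset (Fin 4 × Fin K)).card ≤ 3 := card_le_three
    rw [card_univ, Fintype.card_prod, Fintype.card_fin, Fintype.card_fin] at h2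
    omega
  obtain ⟨w, w', hlt, hoft⟩ := keyE hE b N a hb hN ha r c x hinj (fun w w' h => (hf w w' h).1)
    (fun w w' h => (hrc' _ (hbadd w w' h)).1) (fun w w' h => (hrc' _ (hbadd w w' h)).2.1)
    (fun w w' h => (hrc' _ (hbadd w w' h)).2.2.2.1) (fun w w' hlt q hq hqr => by
      have hzq := (hrc' _ (hbadd w w' hlt)).2.2.1 q hq hqr
      refine ⟨fun u a1 a2 => ?_, fun u v a1 a2 a3 a4 a5 hd => ?_⟩
      · obtain ⟨v, a3, a4, a5⟩ := hfour w w' u
        have h1 := hR w w' hlt u v a1 a2 a3 a4 a5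
        exact ⟨fun h => h1 ⟨q, hq, hzq, hqr, Or.inl h⟩, fun h => h1 ⟨q, hq, hzq, hqr, Or.inr (Or.inl h)⟩⟩
      · have h1 := hR w w' hlt u v a1 a2 a3 a4 a5
        refine h1 ⟨q, hq, hzq, hqr, Or.inr (Or.inr ?_)⟩
        show (q : ℤ) ∣ ((x u : ℤ) - x w) - ((x v : ℤ) - x w)
        have e1 : ((x u : ℤ) - x w) - ((x v : ℤ) - x w) = x u - x v := by ring
        rw [e1]
        exact hd)
    (fun p hp hpK => by
      obtain ⟨b', rfl⟩ := h2
      obtain ⟨n, hn⟩ := loc4 b' c₃ rr h3 p hp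
      refine ⟨n, fun w hd => hn w.1 ?_⟩
      have hpM : (p : ℤ) ∣ (M : ℤ) := by
        have : p ∣ M := by rw [hM]; exact (hp.dvd_factorial).2 hpK
        exact_mod_cast this
      have e1 : x w = rr w.1 + M * F (finProdFinEquiv w, 0) := by
        rw [hxw]
        unfold pos
        rw [hgrp]
      have e2 : n + 2 * (b' : ℤ) * rr w.1 = (n + ((2 * b' : ℕ) : ℤ) * x w) -
          M * (2 * b' * F (finProdFinEquiv w, 0)) := by
        rw [e1]
        push_cast
        ring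
      rw [e2]
      exact dvd_sub hd (hpM.mul_right _))
  exact (hrc' _ (hbadd w w' hlt)).2.2.2.2 hoft

end Pool.Agent.U974.GC
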