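import Pool.Agent.N646.TT.Quad
import Pool.Agent.N646.TT.Box

/-! Counting configurations: copies of lemmas of the starting files `Pool.Agent.N646.TT.Main`, `Cnt`, `Ext`, `Key2`
(the copy avoids their other imports). -/

set_option autoImplicit false

namespace Pool.Agent.U974.GC

open Finset Filter Topology
open Pool.Agent.TH899.UG.TD (QQ quad)
open Pool.Agent.N646.TT (PP emb loc4 exres boxes)

open Classical in
/-- residues -/
theorem residues (H M T : ℕ) (hM : 1 ≤ M) (hT : 5 * H ≤ M * T) (P : (Fin 4 → ℕ) → Prop) :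
    ∃ r : Fin 4 → ℕ, (∀ g, r g < M) ∧
      ((Fintype.piFinset (fun _ : Fin 4 => range (5 * H))).filter P).card ≤
        M ^ 4 * ((Fintype.piFinset (fun _ : Fin 4 => range T)).filter
          (fun t => P (fun g => r g + M * t g))).card := by
  obtain ⟨R, hR⟩ : ∃ R, R = Fintype.piFinset (fun _ : Fin 4 => range M) := ⟨_, rfl⟩
  have hRc : R.card = M ^ 4 := by
    rw [hR, Fintype.card_piFinset, prod_const, card_univ, Fintype.card_fin, card_range]
  have hne : R.Nonempty := by
    rw [← card_pos, hRc]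
    positivity
  obtain ⟨r, hr, hmax⟩ := exists_max_image R (fun r => ((Fintype.piFinset (fun _ : Fin 4 => range T)).filter
    (fun t => P (fun g => r g + M * t g))).card) hne
  rw [hR] at hr
  refine ⟨r, fun g => mem_range.1 (Fintype.mem_piFinset.1 hr g), ?_⟩
  have h1 : ((Fintype.piFinset (fun _ : Fin 4 => range (5 * H))).filter P).card ≤
      ∑ r' ∈ R, ((Fintype.piFinset (fun _ : Fin 4 => range T)).filter
        (fun t => P (fun g => r' g + M * t g))).card := by
    rw [card_eq_sum_card_fiberwise (f := fun f : Fin 4 → ℕ => fun g => f g % M) (t := R)]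
    · refine sum_le_sum fun r' _ => ?_
      apply card_le_card_of_injOn (fun f => fun g => f g / M)
      · intro f hf
        obtain ⟨hf1, hf2⟩ := mem_filter.1 (mem_coe.1 hf)
        obtain ⟨hf3, hf4⟩ := mem_filter.1 hf1
        have h1 : (fun g => r' g + M * (f g / M)) = f := by
          funext g
          have : f g % M = r' g := congrFun hf2 g
          rw [← this]
          exact Nat.mod_add_div _ _
        refine mem_coe.2 (mem_filter.2 ⟨Fintype.mem_piFinset.2 fun g => ?_, ?_⟩)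
        · rw [mem_range]
          have := mem_range.1 (Fintype.mem_piFinset.1 hf3 g)
          exact Nat.div_lt_of_lt_mul (this.trans_le hT)
        · show P (fun g => r' g + M * (f g / M))
          rw [h1]
          exact hf4
      · intro f hf f' hf' h
        have hf2 := (mem_filter.1 (mem_coe.1 hf)).2
        have hf2' := (mem_filter.1 (mem_coe.1 hf')).2
        funext g
        have h1 : f g % M = f' g % M := (congrFun hf2 g).trans (congrFun hf2' g).symm
        have h2 : f g / M = f' g / M := congrFun h g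
        rw [← Nat.mod_add_div (f g) M, h1, h2, Nat.mod_add_div]
    · intro f _
      rw [hR]
      exact mem_coe.2 (Fintype.mem_piFinset.2 fun g => mem_range.2 (Nat.mod_lt _ (by omega)))
  refine h1.trans ((sum_le_sum fun r' hr' => hmax r' hr').trans (le_of_eq ?_))
  rw [sum_const, hRc, smul_eq_mul]

open Classical in
/-- a box all of whose corners are bad quadruples -/
theorem boxU (K T : ℕ) (hK : 1 ≤ K) (Q : (Fin 4 → ℕ) → Prop) (δ : ℝ) (hδ : 0 ≤ δ)
    (h : δ * (T : ℝ) ^ 4 ≤ (((Fintype.piFinset (fun _ : Fin 4 => range T)).filter Q).card : ℝ)) :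
    δ ^ (K ^ 4) * (T : ℝ) ^ (4 * K) ≤
      (((Fintype.piFinset (fun _ : Fin 4 × Fin K => range T)).filter
        (fun H => ∀ σ : Fin 4 → Fin K, Q (fun g => H (g, σ g)))).card : ℝ) := by
  have h1 := boxes K T hK 4 ({()} : Finset Unit) (fun t _ => Q t) δ hδ (by
    rw [card_singleton, Nat.cast_one, one_mul]
    refine h.trans ?_
    rw [Nat.cast_le]
    apply card_le_card_of_injOn (fun t => (t, ()))
    · intro t ht
      obtain ⟨h1, h2⟩ := mem_filter.1 (mem_coe.1 ht)
      exact mem_coe.2 (mem_filter.2 ⟨mem_product.2 ⟨h1, mem_singleton_self _⟩, h2⟩)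
    · intro t _ t' _ h
      exact (Prod.mk.inj h).1)
  rw [card_singleton, Nat.cast_one, one_mul] at h1
  refine h1.trans ?_
  rw [Nat.cast_le]
  apply card_le_card_of_injOn (fun x => (fun y : Fin 4 × Fin K => x.1 y.1 y.2))
  · intro x hx
    obtain ⟨h2, h3⟩ := mem_filter.1 (mem_coe.1 hx)
    obtain ⟨h4, -⟩ := mem_product.1 h2
    refine mem_coe.2 (mem_filter.2 ⟨Fintype.mem_piFinset.2 fun y => ?_, fun σ => h3 σ⟩)
    exact Fintype.mem_piFinset.1 (Fintype.mem_piFinset.1 h4 y.1) y.2
  · rintro ⟨F, ⟨⟩⟩ _ ⟨F', ⟨⟩⟩ _ h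
    have : F = F' := by
      funext g i
      exact congrFun h (g, i)
    rw [this]

open Classical in
/-- configurations counted through all but few of their coordinates -/
theorem rest {ι : Type} [Fintype ι] [DecidableEq ι] (Z : Finset ι) (T : ℕ) (Y : Finset (ι → ℕ))
    (hY : Y ⊆ Fintype.piFinset (fun _ : ι => range T)) (n : ℝ)
    (h' : ∀ H₀ ∈ Fintype.piFinset (fun _ : ι => range T), ∀ S ⊆ Y,
      (∀ H ∈ S, ∀ z, z ∉ Z → H z = H₀ z) → (S.card : ℝ) ≤ n) :
    (Y.card : ℝ) * (T : ℝ) ^ Z.card ≤ n * (T : ℝ) ^ (Fintype.card ι) := by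
  have h : ∀ H₀ ∈ Fintype.piFinset (fun _ : ι => range T),
      ((Y.filter (fun H => ∀ z, z ∉ Z → H z = H₀ z)).card : ℝ) ≤ n := fun H₀ hH₀ =>
    h' H₀ hH₀ _ (filter_subset _ _) (fun H hH => (mem_filter.1 hH).2)
  obtain ⟨P, hP⟩ : ∃ P, P = Fintype.piFinset (fun _ : ι => range T) := ⟨_, rfl⟩
  rw [← hP] at hY h
  have hPc : (P.card : ℝ) = (T : ℝ) ^ (Fintype.card ι) := by
    rw [hP, Fintype.card_piFinset, prod_const, card_univ, card_range]
    push_cast
    rfl
  have h1 : ∑ H₀ ∈ P, (Y.filter (fun H => ∀ z, z ∉ Z → H z = H₀ z)).card =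
      ∑ H ∈ Y, (P.filter (fun H₀ => ∀ z, z ∉ Z → H z = H₀ z)).card := by
    simp only [card_filter]
    exact sum_comm
  have h2 : ∀ H ∈ Y, T ^ Z.card ≤ (P.filter (fun H₀ => ∀ z, z ∉ Z → H z = H₀ z)).card := by
    intro H hH
    have h3 : (Fintype.piFinset (fun z => if z ∈ Z then range T else {H z})).card = T ^ Z.card := by
      rw [Fintype.card_piFinset]
      have h4 : ∀ z ∈ (univ : Finset ι), (if z ∈ Z then range T else {H z}).card =
          if z ∈ Z then T else 1 := by
        intro z _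
        split_ifs
        · rw [card_range]
        · rw [card_singleton]
      rw [prod_congr rfl h4, prod_ite_mem, univ_inter, prod_const]
    rw [← h3]
    apply card_le_card
    intro H₀ hH₀
    have h4 := Fintype.mem_piFinset.1 hH₀
    refine mem_filter.2 ⟨?_, fun z hz => ?_⟩
    · rw [hP]
      refine Fintype.mem_piFinset.2 fun z => ?_
      have h5 := h4 z
      by_cases hz : z ∈ Z
      · rw [if_pos hz] at h5
        exact h5
      · rw [if_neg hz, mem_singleton] at h5
        rw [h5]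
        have h6 := hY hH
        rw [hP] at h6
        exact Fintype.mem_piFinset.1 h6 z
    · have h5 := h4 z
      rw [if_neg hz, mem_singleton] at h5
      exact h5.symm
  calc (Y.card : ℝ) * (T : ℝ) ^ Z.card = ((∑ _H ∈ Y, T ^ Z.card : ℕ) : ℝ) := by
        rw [sum_const, smul_eq_mul]
        push_cast
        rfl
    _ ≤ ((∑ H ∈ Y, (P.filter (fun H₀ => ∀ z, z ∉ Z → H z = H₀ z)).card : ℕ) : ℝ) :=
        Nat.cast_le.2 (sum_le_sum h2)
    _ = ∑ H₀ ∈ P, ((Y.filter (fun H => ∀ z, z ∉ Z → H z = H₀ z)).card : ℝ) := by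
        rw [← h1, Nat.cast_sum]
    _ ≤ ∑ _H₀ ∈ P, n := sum_le_sum h
    _ = _ := by rw [sum_const, nsmul_eq_mul, hPc, mul_comm]

open Classical in
theorem ninj {ι : Type} [Fintype ι] [DecidableEq ι] (T : ℕ) :
    (((Fintype.piFinset (fun _ : ι => range T)).filter (fun H => ¬ Function.Injective H)).card : ℝ) * T ≤
      (Fintype.card ι : ℝ) ^ 2 * (T : ℝ) ^ (Fintype.card ι) := by
  obtain ⟨P, hP⟩ : ∃ P, P = Fintype.piFinset (fun _ : ι => range T) := ⟨_, rfl⟩
  rw [← hP]
  have h1 : P.filter (fun H => ¬ Function.Injective H) ⊆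
      (univ.filter (fun x : ι × ι => x.1 ≠ x.2)).biUnion
        (fun x => P.filter (fun H => H x.1 = H x.2)) := by
    intro H hH
    obtain ⟨h2, h3⟩ := mem_filter.1 hH
    rw [Function.Injective] at h3
    push Not at h3
    obtain ⟨a, b, h4, h5⟩ := h3
    exact mem_biUnion.2 ⟨(a, b), mem_filter.2 ⟨mem_univ _, h5⟩, mem_filter.2 ⟨h2, h4⟩⟩
  have h2 : ∀ x ∈ univ.filter (fun x : ι × ι => x.1 ≠ x.2),
      ((P.filter (fun H => H x.1 = H x.2)).card : ℝ) * T ≤ (T : ℝ) ^ (Fintype.card ι) := by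
    intro x hx
    have hne := (mem_filter.1 hx).2
    have h3 := rest {x.1} T (P.filter (fun H => H x.1 = H x.2)) (by
      rw [hP]
      exact filter_subset _ _) 1 (by
      intro H₀ _ S hS1 hS2
      rw [← Nat.cast_one (R := ℝ), Nat.cast_le, card_le_one]
      intro H hH H' hH'
      have h5 := hS2 H hH
      have h5' := hS2 H' hH'
      have h6 := (mem_filter.1 (hS1 hH)).2
      have h6' := (mem_filter.1 (hS1 hH')).2
      funext z
      by_cases hz : z = x.1
      · rw [hz, h6, h6', h5 x.2 (by rw [mem_singleton]; exact hne.symm),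
          h5' x.2 (by rw [mem_singleton]; exact hne.symm)]
      · rw [h5 z (by rw [mem_singleton]; exact hz), h5' z (by rw [mem_singleton]; exact hz)])
    rw [card_singleton, pow_one, one_mul] at h3
    exact h3
  have h3 : ((P.filter (fun H => ¬ Function.Injective H)).card : ℝ) ≤
      ∑ x ∈ univ.filter (fun x : ι × ι => x.1 ≠ x.2), ((P.filter (fun H => H x.1 = H x.2)).card : ℝ) := by
    have := (card_le_card h1).trans card_biUnion_le
    exact_mod_cast this
  calc ((P.filter (fun H => ¬ Function.Injective H)).card : ℝ) * T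
      ≤ (∑ x ∈ univ.filter (fun x : ι × ι => x.1 ≠ x.2),
          ((P.filter (fun H => H x.1 = H x.2)).card : ℝ)) * T :=
        mul_le_mul_of_nonneg_right h3 (Nat.cast_nonneg _)
    _ = ∑ x ∈ univ.filter (fun x : ι × ι => x.1 ≠ x.2),
          ((P.filter (fun H => H x.1 = H x.2)).card : ℝ) * T := by rw [sum_mul]
    _ ≤ ∑ _x ∈ univ.filter (fun x : ι × ι => x.1 ≠ x.2), (T : ℝ) ^ (Fintype.card ι) := sum_le_sum h2
    _ ≤ _ := by
        rw [sum_const, nsmul_eq_mul]
        apply mul_le_mul_of_nonneg_right _ (by positivity)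
        have h4 : (univ.filter (fun x : ι × ι => x.1 ≠ x.2)).card ≤ Fintype.card ι ^ 2 := by
          refine (card_filter_le _ _).trans ?_
          rw [card_univ, Fintype.card_prod, sq]
        exact_mod_cast h4

/-- the group of a class -/
def grp {m : ℕ} (γ : Fin (4 * m)) : Fin 4 := (finProdFinEquiv.symm γ).1

/-- the position of the form `z` -/
def pos {m K : ℕ} (M : ℕ) (r : Fin 4 → ℕ) (H : Fin (4 * m) × Fin K → ℕ) (z : Fin (4 * m) × Fin K) : ℕ :=
  r (grp z.1) + M * H z

/-- all differences between different groups are in `B` -/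
def Fam {m K : ℕ} (M : ℕ) (B : Finset ℕ) (r : Fin 4 → ℕ) (H : Fin (4 * m) × Fin K → ℕ) : Prop :=
  ∀ z z' : Fin (4 * m) × Fin K, grp z.1 < grp z'.1 →
    pos M r H z < pos M r H z' ∧ pos M r H z' - pos M r H z ∈ B

open Classical in
theorem fam_many (m K T M c : ℕ) (hmK : 1 ≤ m * K) (B : Finset ℕ) (r : Fin 4 → ℕ) (δ : ℝ) (hδ : 0 ≤ δ)
    (h : δ * (T : ℝ) ^ 4 ≤ (((Fintype.piFinset (fun _ : Fin 4 => range T)).filter
      (fun t => PP B c (fun g => r g + M * t g))).card : ℝ)) :
    δ ^ ((m * K) ^ 4) * (T : ℝ) ^ (4 * m * K) ≤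
      (((Fintype.piFinset (fun _ : Fin (4 * m) × Fin K => range T)).filter
        (fun H => Fam M B r H)).card : ℝ) := by
  have h1 := boxU (m * K) T hmK (fun t => PP B c (fun g => r g + M * t g)) δ hδ h
  have e : 4 * (m * K) = 4 * m * K := by ring
  rw [e] at h1
  refine h1.trans ?_
  rw [Nat.cast_le]
  set E : Fin (4 * m) × Fin K → Fin 4 × Fin (m * K) := fun z =>
    (grp z.1, finProdFinEquiv ((finProdFinEquiv.symm z.1).2, z.2)) with hE
  have hEs : Function.Surjective E := by
    rintro ⟨g, j⟩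
    refine ⟨(finProdFinEquiv (g, (finProdFinEquiv.symm j).1), (finProdFinEquiv.symm j).2), ?_⟩
    rw [hE]
    unfold grp
    simp only [Equiv.symm_apply_apply, Equiv.apply_symm_apply, Prod.mk.eta]
  apply card_le_card_of_injOn (fun H' => fun z => H' (E z))
  · intro H' hH'
    obtain ⟨h2, h3⟩ := mem_filter.1 (mem_coe.1 hH')
    refine mem_coe.2 (mem_filter.2 ⟨Fintype.mem_piFinset.2 fun z => Fintype.mem_piFinset.1 h2 (E z), ?_⟩)
    intro z z' hzz
    have h4 := (h3 (Function.update (fun _ => (E z).2) (grp z'.1) (E z').2)).1 (grp z.1) (grp z'.1) hzz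
    simp only [Function.update_self, Function.update_of_ne hzz.ne] at h4
    exact h4
  · intro H' _ H'' _ h4
    funext y
    obtain ⟨z, rfl⟩ := hEs y
    exact congrFun h4 z

theorem pos_inj {m K M : ℕ} (hM : 1 ≤ M) {B : Finset ℕ} {r : Fin 4 → ℕ}
    {H : Fin (4 * m) × Fin K → ℕ} (hF : Fam M B r H) (hi : Function.Injective H) :
    Function.Injective (pos M r H) := by
  intro z z' h
  rcases lt_trichotomy (grp z.1) (grp z'.1) with h1 | h1 | h1
  · have := (hF z z' h1).1
    omega
  · unfold pos at h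
    rw [h1] at h
    exact hi (Nat.eq_of_mul_eq_mul_left hM (Nat.add_left_cancel h))
  · have := (hF z' z h1).1
    omega

theorem pos_bd {m K M Hh : ℕ} {B : Finset ℕ} {r : Fin 4 → ℕ}
    (hB : ∀ d ∈ B, 1 ≤ d ∧ d ≤ Hh) {H : Fin (4 * m) × Fin K → ℕ} (hF : Fam M B r H)
    (z₀ z₁ z : Fin (4 * m) × Fin K) (h01 : grp z₀.1 < grp z₁.1) :
    -(Hh : ℤ) ≤ (pos M r H z : ℤ) - pos M r H z₀ ∧ (pos M r H z : ℤ) - pos M r H z₀ ≤ Hh := by
  obtain ⟨a1, a2⟩ := hF z₀ z₁ h01
  have a3 := hB _ a2
  rcases lt_trichotomy (grp z₀.1) (grp z.1) with h1 | h1 | h1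
  · obtain ⟨b1, b2⟩ := hF z₀ z h1
    have b3 := hB _ b2
    omega
  · obtain ⟨b1, b2⟩ := hF z z₁ (h1 ▸ h01)
    have b3 := hB _ b2
    omega
  · obtain ⟨b1, b2⟩ := hF z z₀ h1
    have b3 := hB _ b2
    omega

open Classical in
/-- the vectors `t` in `[-H, H] ^ k` with different coordinates `≠ 0, d` and the property `Q d t` -/
noncomputable def extQ (k : ℕ) (Q : ℕ → (Fin k → ℤ) → Prop) (H d : ℕ) : Finset (Fin k → ℤ) :=
  (Fintype.piFinset (fun _ : Fin k => Icc (-(H : ℤ)) H)).filter (fun t => Function.Injective t ∧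
    (∀ i, t i ≠ 0 ∧ t i ≠ d) ∧ Q d t)

/-- the property of the tuple given by `g`, `σ` -/
def QP {m K k : ℕ} (M : ℕ) (r : Fin 4 → ℕ) (Q : ℕ → (Fin k → ℤ) → Prop)
    (g : Fin (k + 2) → Fin (4 * m)) (σ : Fin (4 * m) → Fin K) (F : Fin (4 * m) × Fin K → ℕ) : Prop :=
  Q (pos M r F (g 1, σ (g 1)) - pos M r F (g 0, σ (g 0)))
    (fun i : Fin k => (pos M r F (g i.succ.succ, σ (g i.succ.succ)) : ℤ) - pos M r F (g 0, σ (g 0)))

open Classical in
theorem key2 (m K T M k Hh : ℕ) (B : Finset ℕ) (r : Fin 4 → ℕ) (Q : ℕ → (Fin k → ℤ) → Prop) (n : ℝ)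
    (hM : 1 ≤ M) (hB : ∀ d ∈ B, 1 ≤ d ∧ d ≤ Hh)
    (hBe : ∀ d ∈ B, ((extQ k Q Hh d).card : ℝ) ≤ n) (hn : 0 ≤ n)
    (g : Fin (k + 2) → Fin (4 * m)) (hg : Function.Injective g) (h01 : grp (g 0) < grp (g 1))
    (σ : Fin (4 * m) → Fin K) :
    (((Fintype.piFinset (fun _ : Fin (4 * m) × Fin K => range T)).filter
      (fun H => Fam M B r H ∧ Function.Injective H ∧ QP M r Q g σ H)).card : ℝ) * (T : ℝ) ^ k ≤
      n * (T : ℝ) ^ (4 * m * K) := by
  set Y := (Fintype.piFinset (fun _ : Fin (4 * m) × Fin K => range T)).filter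
      (fun H => Fam M B r H ∧ Function.Injective H ∧ QP M r Q g σ H) with hY
  obtain ⟨zf, hzf⟩ : ∃ zf : Fin (k + 2) → Fin (4 * m) × Fin K, zf = fun i => (g i, σ (g i)) := ⟨_, rfl⟩
  have hzfi : Function.Injective zf := by
    intro i j hij
    rw [hzf] at hij
    exact hg (congrArg Prod.fst hij)
  have hzf1 : ∀ i, (zf i).1 = g i := fun i => by rw [hzf]
  have hzf2 : ∀ i, (g i, σ (g i)) = zf i := fun i => by rw [hzf]
  have h2i : Function.Injective (fun i : Fin k => zf i.succ.succ) := by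
    intro i j hij
    exact Fin.succ_injective _ (Fin.succ_injective _ (hzfi hij))
  obtain ⟨Z, hZ⟩ : ∃ Z, Z = (univ : Finset (Fin k)).image (fun i => zf i.succ.succ) := ⟨_, rfl⟩
  have hZc : Z.card = k := by
    rw [hZ, card_image_of_injective _ h2i, card_univ, Fintype.card_fin]
  have hz0 : zf 0 ∉ Z := by
    rw [hZ, mem_image]
    rintro ⟨i, -, hi⟩
    exact (Fin.succ_ne_zero _) (hzfi hi)
  have hz1 : zf 1 ∉ Z := by
    rw [hZ, mem_image]
    rintro ⟨i, -, hi⟩
    have h2 : i.succ.succ = (0 : Fin (k + 1)).succ := hzfi hi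
    exact (Fin.succ_ne_zero _) (Fin.succ_injective _ h2)
  have h01' : grp (zf 0).1 < grp (zf 1).1 := by
    rw [hzf1, hzf1]
    exact h01
  have hYs : Y ⊆ Fintype.piFinset (fun _ : Fin (4 * m) × Fin K => range T) := by
    intro H hH
    rw [hY] at hH
    exact (mem_filter.1 hH).1
  have hmain := rest Z T Y hYs n (by
    intro H₀ _ S hS1 hS2
    rcases S.eq_empty_or_nonempty with he | ⟨H₁, hH₁⟩
    · rw [he, card_empty, Nat.cast_zero]
      exact hn
    have hpos : ∀ H ∈ S,
        pos M r H (zf 0) = pos M r H₀ (zf 0) ∧ pos M r H (zf 1) = pos M r H₀ (zf 1) := by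
      intro H hH
      have h1 := hS2 H hH
      unfold pos
      rw [h1 _ hz0, h1 _ hz1]
      exact ⟨rfl, rfl⟩
    obtain ⟨d, hd⟩ : ∃ d, d = pos M r H₀ (zf 1) - pos M r H₀ (zf 0) := ⟨_, rfl⟩
    have hdB : d ∈ B := by
      have h1 := hS1 hH₁
      rw [hY] at h1
      obtain ⟨-, h2, -⟩ := mem_filter.1 h1
      have h3 := (h2 (zf 0) (zf 1) h01').2
      rw [(hpos H₁ hH₁).1, (hpos H₁ hH₁).2, ← hd] at h3
      exact h3
    refine le_trans ?_ (hBe d hdB)
    rw [Nat.cast_le]
    apply card_le_card_of_injOn (fun H => fun i : Fin k =>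
      (pos M r H (zf i.succ.succ) : ℤ) - pos M r H (zf 0))
    · intro H hH
      have hp := hpos H (mem_coe.1 hH)
      have h1 := hS1 (mem_coe.1 hH)
      rw [hY] at h1
      obtain ⟨h2, h3, h4, h5⟩ := mem_filter.1 h1
      have hpi := pos_inj hM h3 h4
      have hlt := (h3 (zf 0) (zf 1) h01').1
      have hdd : (d : ℤ) = (pos M r H (zf 1) : ℤ) - pos M r H (zf 0) := by
        rw [hd, ← hp.1, ← hp.2]
        omega
      refine mem_coe.2 (mem_filter.2 ⟨Fintype.mem_piFinset.2 fun i => mem_Icc.2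
        (pos_bd hB h3 (zf 0) (zf 1) (zf i.succ.succ) h01'), ?_, ?_, ?_⟩)
      · intro i j hij
        have h6 : (pos M r H (zf i.succ.succ) : ℤ) - pos M r H (zf 0) =
          (pos M r H (zf j.succ.succ) : ℤ) - pos M r H (zf 0) := hij
        have h7 : pos M r H (zf i.succ.succ) = pos M r H (zf j.succ.succ) := by omega
        exact h2i (hpi h7)
      · intro i
        refine ⟨fun h6 => ?_, fun h6 => ?_⟩
        · have h7 : (pos M r H (zf i.succ.succ) : ℤ) - pos M r H (zf 0) = 0 := h6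
          have h8 : pos M r H (zf i.succ.succ) = pos M r H (zf 0) := by omega
          exact (Fin.succ_ne_zero _) (hzfi (hpi h8))
        · have h7 : (pos M r H (zf i.succ.succ) : ℤ) - pos M r H (zf 0) = d := h6
          have h8 : pos M r H (zf i.succ.succ) = pos M r H (zf 1) := by omega
          have h9 : i.succ.succ = (0 : Fin (k + 1)).succ := hzfi (hpi h8)
          exact (Fin.succ_ne_zero _) (Fin.succ_injective _ h9)
      · unfold QP at h5
        simp only [hzf2] at h5
        rw [hp.1, hp.2, ← hd] at h5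
        show Q d (fun i : Fin k => (pos M r H (zf i.succ.succ) : ℤ) - pos M r H (zf 0))
        rw [hp.1]
        exact h5
    · intro H hH H' hH' hHH
      have h2 := hS2 H (mem_coe.1 hH)
      have h2' := hS2 H' (mem_coe.1 hH')
      have hp := hpos H (mem_coe.1 hH)
      have hp' := hpos H' (mem_coe.1 hH')
      funext z
      by_cases hz : z ∈ Z
      · rw [hZ] at hz
        obtain ⟨i, -, hi⟩ := mem_image.1 hz
        have h3 : (pos M r H (zf i.succ.succ) : ℤ) - pos M r H (zf 0) =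
          (pos M r H' (zf i.succ.succ) : ℤ) - pos M r H' (zf 0) := congrFun hHH i
        rw [hp.1, hp'.1] at h3
        have h4 : pos M r H (zf i.succ.succ) = pos M r H' (zf i.succ.succ) := by omega
        unfold pos at h4
        rw [hi] at h4
        exact Nat.eq_of_mul_eq_mul_left hM (Nat.add_left_cancel h4)
      · rw [h2 z hz, h2' z hz])
  rw [hZc, Fintype.card_prod, Fintype.card_fin, Fintype.card_fin] at hmain
  exact hmain

end Pool.Agent.U974.GC
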